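import Pool.Agent.Helper73.Split.LSigma

/-!
# Closing off, retractions, and the chain theorem for Corson compacta
-/

open Set Filter Topology TopologicalSpace Cardinal

universe u

namespace Pool.Agent.Helper73.Split

/-! ### Finitary closure operators -/

section Closure

variable {K : Type u} (c : Finset K → Set K)

/-- A set closed under the finitary operation `c`. -/
def ClosedUnder (S : Set K) : Prop := ∀ F : Finset K, (F : Set K) ⊆ S → c F ⊆ S

/-- The closure of a set under `c`. -/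
def cl (S : Set K) : Set K := ⋂₀ {T | S ⊆ T ∧ ClosedUnder c T}

theorem subset_cl (S : Set K) : S ⊆ cl c S := subset_sInter fun _ hT => hT.1

theorem closedUnder_cl (S : Set K) : ClosedUnder c (cl c S) := by
  intro F hF
  refine subset_sInter fun T hT => hT.2 F (hF.trans (sInter_subset_of_mem hT))

theorem cl_min {S T : Set K} (h : S ⊆ T) (hT : ClosedUnder c T) : cl c S ⊆ T :=
  sInter_subset_of_mem ⟨h, hT⟩

theorem cl_mono {S T : Set K} (h : S ⊆ T) : cl c S ⊆ cl c T :=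
  cl_min c (h.trans (subset_cl c T)) (closedUnder_cl c T)

/-- The iteration computing the closure. -/
def clSeq (S : Set K) : ℕ → Set K
  | 0 => S
  | n + 1 => clSeq S n ∪ ⋃ F : Finset (clSeq S n), c (F.map (Function.Embedding.subtype _))

theorem clSeq_mono (S : Set K) : Monotone (clSeq c S) :=
  monotone_nat_of_le_succ fun _ => subset_union_left

theorem cl_subset_iUnion (S : Set K) : cl c S ⊆ ⋃ n, clSeq c S n := by
  classical
  refine cl_min c (subset_iUnion (clSeq c S) 0) ?_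
  intro F hF
  have : ∃ n, (F : Set K) ⊆ clSeq c S n := by
    induction F using Finset.induction_on with
    | empty => exact ⟨0, by simp⟩
    | insert a F _ ih =>
      rw [Finset.coe_insert, insert_subset_iff] at hF
      obtain ⟨n, hn⟩ := ih hF.2
      obtain ⟨m, hm⟩ := mem_iUnion.1 hF.1
      refine ⟨max n m, ?_⟩
      rw [Finset.coe_insert, insert_subset_iff]
      exact ⟨clSeq_mono c S (le_max_right n m) hm, hn.trans (clSeq_mono c S (le_max_left n m))⟩
  obtain ⟨n, hn⟩ := this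
  refine subset_trans ?_ (subset_iUnion (clSeq c S) (n + 1))
  refine subset_trans ?_ subset_union_right
  let F' : Finset (clSeq c S n) := F.subtype (· ∈ clSeq c S n)
  have hF' : F'.map (Function.Embedding.subtype _) = F := by
    ext a
    simp only [F', Finset.subtype_map, Finset.mem_filter, and_iff_left_iff_imp]
    exact fun ha => hn ha
  exact subset_trans (by rw [hF']) (subset_iUnion (fun F : Finset (clSeq c S n) =>
    c (F.map (Function.Embedding.subtype _))) F')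

theorem mk_finset_le_of_le {α : Type u} {l : Cardinal.{u}} (hl : ℵ₀ ≤ l) (h : #α ≤ l) :
    #(Finset α) ≤ l := by
  classical
  calc #(Finset α) ≤ #(List α) := mk_le_of_surjective List.toFinset_surjective
    _ ≤ max ℵ₀ #α := mk_list_le_max α
    _ ≤ l := max_le hl h

theorem mk_iUnion_le_of_le {ι α : Type u} {l : Cardinal.{u}} (hl : ℵ₀ ≤ l) (f : ι → Set α)
    (hι : #ι ≤ l) (hf : ∀ i, #(f i) ≤ l) : #(⋃ i, f i) ≤ l := by
  have h1 : #(⋃ i, f i) ≤ #ι * ⨆ i, #(f i) := mk_iUnion_le f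
  have h2 : (⨆ i, #(f i)) ≤ l := ciSup_le' hf
  exact h1.trans ((mul_le_mul' hι h2).trans (mul_eq_self hl).le)

theorem mk_cl_le {l : Cardinal.{u}} (hl : ℵ₀ ≤ l) {S : Set K} (hS : #S ≤ l)
    (hc : ∀ F, #(c F) ≤ l) : #(cl c S) ≤ l := by
  have hseq : ∀ n, #(clSeq c S n) ≤ l := by
    intro n
    induction n with
    | zero => exact hS
    | succ n ih =>
      have h1 : #(⋃ F : Finset (clSeq c S n), c (F.map (Function.Embedding.subtype _)) : Set K) ≤ l :=
        mk_iUnion_le_of_le hl _ (mk_finset_le_of_le hl ih) fun F => hc _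
      exact (mk_union_le _ _).trans (add_le_of_le hl ih h1)
  have h1 : (⋃ n, clSeq c S n) = ⋃ n : ULift.{u} ℕ, clSeq c S n.down := by
    ext x; simp
  have h2 : #(⋃ n : ULift.{u} ℕ, clSeq c S n.down : Set K) ≤ l :=
    mk_iUnion_le_of_le hl _ (by rw [mk_uLift, mk_nat, lift_aleph0]; exact hl) fun n => hseq n.down
  have h3 := mk_le_mk_of_subset (cl_subset_iUnion c S)
  rw [h1] at h3
  exact h3.trans h2

theorem mk_cl_lt {k : Cardinal.{u}} (hk : k.IsRegular) (hk' : ℵ₀ < k) {S : Set K} (hS : #S < k)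
    (hc : ∀ F, #(c F) < k) : #(cl c S) < k := by
  have hseq : ∀ n, #(clSeq c S n) < k := by
    intro n
    induction n with
    | zero => exact hS
    | succ n ih =>
      refine (mk_union_le _ _).trans_lt (add_lt_of_lt hk.aleph0_le ih ?_)
      rw [card_iUnion_lt_iff_forall_of_isRegular hk]
      · exact fun F => hc _
      · calc #(Finset (clSeq c S n)) ≤ max ℵ₀ #(clSeq c S n) :=
              mk_finset_le_of_le (le_max_left _ _) (le_max_right _ _)
          _ < k := max_lt hk' ih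
  refine (mk_le_mk_of_subset (cl_subset_iUnion c S)).trans_lt ?_
  have : (⋃ n, clSeq c S n) = ⋃ n : ULift.{u} ℕ, clSeq c S n.down := by
    ext x; simp
  rw [this, card_iUnion_lt_iff_forall_of_isRegular hk]
  · exact fun n => hseq n.down
  · rw [mk_uLift, mk_nat, lift_aleph0]; exact hk'

end Closure

/-! ### Density lemma -/

theorem exists_countable_fiber_dense {X : Type u} [TopologicalSpace X] [CompactSpace X]
    {K : Type u} (d : K → X) (A : Set X) (hA : A ⊆ closure (range d)) (𝓑 : Set (X → ℝ))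
    (h𝓑 : 𝓑.Countable) (hcont : ∀ g ∈ 𝓑, Continuous g) :
    ∃ c : Set K, c.Countable ∧ ∀ x ∈ A, ∃ z ∈ closure (d '' c), ∀ g ∈ 𝓑, g z = g x := by
  have : Countable 𝓑 := h𝓑.to_subtype
  let q : X → (𝓑 → ℝ) := fun x g => g.1 x
  have hq : Continuous q := continuous_pi fun g => hcont g.1 g.2
  obtain ⟨t, htr, htc, ht⟩ := (IsSeparable.of_separableSpace
    (range (q ∘ d))).exists_countable_dense_subset
  choose s hs using fun y : t => htr y.2
  have htc' : Countable t := htc.to_subtype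
  refine ⟨range s, countable_range s, fun x hx => ?_⟩
  have h1 : t ⊆ q '' (d '' (range s)) := by
    intro y hy
    exact ⟨d (s ⟨y, hy⟩), ⟨s ⟨y, hy⟩, ⟨⟨y, hy⟩, rfl⟩, rfl⟩, hs ⟨y, hy⟩⟩
  have h2 : q x ∈ closure (q '' (d '' (range s))) := by
    have h3 : q x ∈ closure (q '' range d) := image_closure_subset_closure_image hq ⟨x, hA hx, rfl⟩
    rw [← range_comp] at h3
    have h4 : closure (range (q ∘ d)) ⊆ closure t := closure_minimal ht isClosed_closure
    exact closure_mono h1 (h4 h3)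
  have h5 : IsClosed (q '' closure (d '' (range s))) :=
    (isClosed_closure.isCompact.image hq).isClosed
  have h6 : q x ∈ q '' closure (d '' (range s)) :=
    closure_minimal (image_mono subset_closure) h5 h2
  obtain ⟨z, hz, hzx⟩ := h6
  exact ⟨z, hz, fun g hg => congrFun hzx ⟨g, hg⟩⟩

/-- Closing off. -/
theorem exists_fiber_of_closed {X : Type u} [TopologicalSpace X] [CompactSpace X]
    {K : Type u} (d : K → X) (𝓕 : Finset K → Set (X → ℝ))
    (hcont : ∀ F, ∀ g ∈ 𝓕 F, Continuous g) (hmono : ∀ F G, F ⊆ G → 𝓕 F ⊆ 𝓕 G)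
    (c : Finset K → Set K) (x : X)
    (hc : ∀ F, ∃ z ∈ closure (d '' c F), ∀ g ∈ 𝓕 F, g z = g x) {S : Set K}
    (hS : ClosedUnder c S) :
    ∃ z ∈ closure (d '' S), ∀ F : Finset K, (F : Set K) ⊆ S → ∀ g ∈ 𝓕 F, g z = g x := by
  classical
  let J := {F : Finset K // (F : Set K) ⊆ S}
  have : Nonempty J := ⟨⟨∅, by simp⟩⟩
  let T : J → Set X := fun F => {z | z ∈ closure (d '' S) ∧ ∀ g ∈ 𝓕 F.1, g z = g x}
  have hcl : ∀ j, IsClosed (T j) := by
    intro j
    have : T j = closure (d '' S) ∩ ⋂ (g : X → ℝ) (_ : g ∈ 𝓕 j.1), {z | g z = g x} := by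
      ext z; simp [T]
    rw [this]
    exact isClosed_closure.inter (isClosed_iInter fun g => isClosed_iInter fun hg =>
      isClosed_eq (hcont _ g hg) continuous_const)
  have hne : (⋂ j, T j).Nonempty := by
    refine IsCompact.nonempty_iInter_of_directed_nonempty_isCompact_isClosed T ?_ ?_
      (fun j => (hcl j).isCompact) hcl
    · rintro ⟨F, hF⟩ ⟨G, hG⟩
      refine ⟨⟨F ∪ G, by rw [Finset.coe_union]; exact union_subset hF hG⟩, ?_, ?_⟩
      · rintro z ⟨h1, h2⟩
        exact ⟨h1, fun g hg => h2 g (hmono _ _ Finset.subset_union_left hg)⟩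
      · rintro z ⟨h1, h2⟩
        exact ⟨h1, fun g hg => h2 g (hmono _ _ Finset.subset_union_right hg)⟩
    · rintro ⟨F, hF⟩
      obtain ⟨z, hz, hz'⟩ := hc F
      exact ⟨z, closure_mono (image_mono (hS F hF)) hz, hz'⟩
  obtain ⟨z, hz⟩ := hne
  rw [mem_iInter] at hz
  exact ⟨z, (hz ⟨∅, by simp⟩).1, fun F hF g hg => (hz ⟨F, hF⟩).2 g hg⟩

theorem continuous_of_closed_graph' {X Y : Type u} [TopologicalSpace X] [TopologicalSpace Y]
    [CompactSpace Y] (f : X → Y) (h : IsClosed {p : X × Y | p.2 = f p.1}) : Continuous f := by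
  rw [continuous_iff_isClosed]
  intro C hC
  have : f ⁻¹' C = Prod.fst '' ({p : X × Y | p.2 = f p.1} ∩ Prod.snd ⁻¹' C) := by
    ext x
    constructor
    · intro hx
      exact ⟨(x, f x), ⟨rfl, hx⟩, rfl⟩
    · rintro ⟨⟨a, b⟩, ⟨h1, h2⟩, rfl⟩
      have h1 : b = f a := h1
      simp only [mem_preimage] at h2 ⊢
      rwa [← h1]
  rw [this]
  exact isClosedMap_fst_of_compactSpace _ (h.inter (hC.preimage continuous_snd))

/-! ### Corson compacta, countable tightness -/

/-- Corson compactness in terms of a point-countable separating family of functions. -/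
def IsCorson (X : Type u) [TopologicalSpace X] : Prop :=
  ∃ (I : Type u) (Φ : I → X → ℝ), (∀ i, Continuous (Φ i)) ∧
    (∀ x y, (∀ i, Φ i x = Φ i y) → x = y) ∧ ∀ x, {i | Φ i x ≠ 0}.Countable

/-- Countable tightness. -/
def CTight (X : Type u) [TopologicalSpace X] : Prop :=
  ∀ (A : Set X) (x : X), x ∈ closure A → ∃ C ⊆ A, C.Countable ∧ x ∈ closure C

theorem CTight.image {X : Type u} [TopologicalSpace X] (h : CTight X) {K : Type u} (d : K → X)
    {S : Set K} {x : X} (hx : x ∈ closure (d '' S)) :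
    ∃ C ⊆ S, C.Countable ∧ x ∈ closure (d '' C) := by
  obtain ⟨C, hC, hCc, hxC⟩ := h _ x hx
  choose s hs hsd using fun y : C => hC y.2
  have hCc' : Countable C := hCc.to_subtype
  refine ⟨range s, ?_, countable_range s, ?_⟩
  · rintro _ ⟨y, rfl⟩
    exact hs y
  · have : d '' (range s) = C := by
      ext y
      constructor
      · rintro ⟨_, ⟨z, rfl⟩, rfl⟩
        rw [hsd z]
        exact z.2
      · intro hy
        exact ⟨s ⟨y, hy⟩, ⟨⟨y, hy⟩, rfl⟩, hsd ⟨y, hy⟩⟩
    rwa [this]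

/-! ### The chain theorem -/

section ChainThm

variable {X : Type u} [TopologicalSpace X] [CompactSpace X] [T2Space X]
  {K : Type u} (d : K → X) (𝓕 : Finset K → Set (X → ℝ))
  (c : Finset K → Set K)

open Classical in
/-- The retraction onto the closure of `d '' S`. -/
noncomputable def Rt (S : Set K) (x : X) : X :=
  if h : ∃ z ∈ closure (d '' S), ∀ F : Finset K, (F : Set K) ⊆ S → ∀ g ∈ 𝓕 F, g z = g x
    then h.choose else x

/-- The hypotheses of the chain theorem. -/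
structure ChainHyp : Prop where
  cont : ∀ F, ∀ g ∈ 𝓕 F, Continuous g
  mono : ∀ F G, F ⊆ G → 𝓕 F ⊆ 𝓕 G
  dens : ∀ x F, ∃ z ∈ closure (d '' c F), ∀ g ∈ 𝓕 F, g z = g x
  sep : ∀ S, ClosedUnder c S → ∀ x ∈ closure (d '' S), ∀ y ∈ closure (d '' S), x ≠ y →
    ∃ F : Finset K, (F : Set K) ⊆ S ∧ ∃ g ∈ 𝓕 F, g x ≠ g y

variable {d 𝓕 c}

omit [T2Space X] in
theorem ChainHyp.exists_ret (H : ChainHyp d 𝓕 c) {S : Set K} (hS : ClosedUnder c S) (x : X) :
    ∃ z ∈ closure (d '' S), ∀ F : Finset K, (F : Set K) ⊆ S → ∀ g ∈ 𝓕 F, g z = g x :=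
  exists_fiber_of_closed d 𝓕 H.cont H.mono c x (H.dens x) hS

omit [T2Space X] in
theorem ChainHyp.Rt_mem (H : ChainHyp d 𝓕 c) {S : Set K} (hS : ClosedUnder c S) (x : X) :
    Rt d 𝓕 S x ∈ closure (d '' S) := by
  rw [Rt, dif_pos (H.exists_ret hS x)]
  exact (H.exists_ret hS x).choose_spec.1

omit [T2Space X] in
theorem ChainHyp.Rt_eq (H : ChainHyp d 𝓕 c) {S : Set K} (hS : ClosedUnder c S) (x : X)
    (F : Finset K) (hF : (F : Set K) ⊆ S) (g : X → ℝ) (hg : g ∈ 𝓕 F) :
    g (Rt d 𝓕 S x) = g x := by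
  rw [Rt, dif_pos (H.exists_ret hS x)]
  exact (H.exists_ret hS x).choose_spec.2 F hF g hg

omit [T2Space X] in
theorem ChainHyp.Rt_unique (H : ChainHyp d 𝓕 c) {S : Set K} (hS : ClosedUnder c S) {x z : X}
    (hz : z ∈ closure (d '' S))
    (h : ∀ F : Finset K, (F : Set K) ⊆ S → ∀ g ∈ 𝓕 F, g z = g x) : Rt d 𝓕 S x = z := by
  by_contra hne
  obtain ⟨F, hF, g, hg, hgne⟩ := H.sep S hS _ (H.Rt_mem hS x) z hz hne
  exact hgne (by rw [H.Rt_eq hS x F hF g hg, h F hF g hg])

theorem ChainHyp.Rt_continuous (H : ChainHyp d 𝓕 c) {S : Set K} (hS : ClosedUnder c S) :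
    Continuous (Rt d 𝓕 S) := by
  refine continuous_of_closed_graph' _ ?_
  have : {p : X × X | p.2 = Rt d 𝓕 S p.1} = (Prod.snd ⁻¹' closure (d '' S)) ∩
      ⋂ (F : Finset K) (_ : (F : Set K) ⊆ S) (g : X → ℝ) (_ : g ∈ 𝓕 F),
        {p : X × X | g p.2 = g p.1} := by
    ext ⟨x, z⟩
    simp only [mem_inter_iff, mem_preimage, mem_iInter]
    constructor
    · intro h
      have h : z = Rt d 𝓕 S x := h
      subst h
      exact ⟨H.Rt_mem hS x, fun F hF g hg => H.Rt_eq hS x F hF g hg⟩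
    · rintro ⟨h1, h2⟩
      exact (H.Rt_unique hS h1 h2).symm
  rw [this]
  refine (isClosed_closure.preimage continuous_snd).inter ?_
  refine isClosed_iInter fun F => isClosed_iInter fun _ => isClosed_iInter fun g =>
    isClosed_iInter fun hg => ?_
  exact isClosed_eq ((H.cont F g hg).comp continuous_snd) ((H.cont F g hg).comp continuous_fst)

variable [LinearOrder K]

variable (c) in
/-- The members of the chain. -/
def Sg (α : K) : Set K := cl c (Iic α)

variable (c) in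
/-- Unions of initial pieces of the chain. -/
def Tg (L : Set K) : Set K := cl c ∅ ∪ ⋃ β ∈ L, Sg c β

theorem Sg_mono {α β : K} (h : α ≤ β) : Sg c α ⊆ Sg c β := cl_mono c (Iic_subset_Iic.2 h)

theorem cl_empty_subset_Sg (α : K) : cl c ∅ ⊆ Sg c α := cl_mono c (empty_subset _)

theorem Sg_subset_Tg {L : Set K} {β : K} (h : β ∈ L) : Sg c β ⊆ Tg c L :=
  subset_union_of_subset_right (subset_biUnion_of_mem (u := fun β => Sg c β) h) _

theorem Tg_mono {L M : Set K} (h : L ⊆ M) : Tg c L ⊆ Tg c M :=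
  union_subset_union_right _ (biUnion_subset_biUnion_left h)

theorem Tg_Iio_subset_Sg (α : K) : Tg c (Iio α) ⊆ Sg c α :=
  union_subset (cl_empty_subset_Sg α) (iUnion₂_subset fun _ hβ => Sg_mono (le_of_lt hβ))

theorem finset_subset_Tg {L : Set K} (F : Finset K) (hF : (F : Set K) ⊆ Tg c L) :
    (F : Set K) ⊆ cl c ∅ ∨ ∃ β ∈ L, (F : Set K) ⊆ Sg c β := by
  classical
  induction F using Finset.induction_on with
  | empty => left; simp
  | insert a F _ ih =>
    rw [Finset.coe_insert, insert_subset_iff] at hF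
    rw [Finset.coe_insert, insert_subset_iff]
    rcases ih hF.2 with h | ⟨β, hβ, h⟩
    · rcases hF.1 with h' | h'
      · exact Or.inl ⟨h', h⟩
      · obtain ⟨γ, hγ, h'⟩ := mem_iUnion₂.1 h'
        exact Or.inr ⟨γ, hγ, insert_subset_iff.2 ⟨h', h.trans (cl_empty_subset_Sg γ)⟩⟩
    · rcases hF.1 with h' | h'
      · exact Or.inr ⟨β, hβ, insert_subset_iff.2 ⟨cl_empty_subset_Sg β h', h⟩⟩
      · obtain ⟨γ, hγ, h'⟩ := mem_iUnion₂.1 h'
        rcases le_total β γ with hle | hle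
        · exact Or.inr ⟨γ, hγ, insert_subset_iff.2 ⟨h', h.trans (Sg_mono hle)⟩⟩
        · exact Or.inr ⟨β, hβ, insert_subset_iff.2 ⟨Sg_mono hle h', h⟩⟩

theorem closedUnder_Sg (α : K) : ClosedUnder c (Sg c α) := closedUnder_cl c _

theorem closedUnder_Tg (L : Set K) : ClosedUnder c (Tg c L) := by
  intro F hF
  rcases finset_subset_Tg F hF with h | ⟨β, hβ, h⟩
  · exact (closedUnder_cl c ∅ F h).trans subset_union_left
  · exact (closedUnder_Sg β F h).trans (Sg_subset_Tg hβ)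

variable (d 𝓕 c) in
/-- The support of a point along the chain. -/
def Sup (x : X) : Set K := {α | Rt d 𝓕 (Sg c α) x ≠ Rt d 𝓕 (Tg c (Iio α)) x}

theorem ChainHyp.sup_countable_aux (H : ChainHyp d 𝓕 c) (htight : CTight X) (x : X) (L : Set K)
    (hL : ∀ a ∈ L, ∀ b ≤ a, b ∈ L) (h : ∀ β ∈ L, (Sup d 𝓕 c x ∩ Iio β).Countable) :
    (Sup d 𝓕 c x ∩ L).Countable := by
  have hT : ClosedUnder c (Tg c L) := closedUnder_Tg L
  obtain ⟨z, hzmem, hzeq⟩ : ∃ z, z ∈ closure (d '' Tg c L) ∧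
      ∀ F : Finset K, (F : Set K) ⊆ Tg c L → ∀ g ∈ 𝓕 F, g z = g x :=
    ⟨Rt d 𝓕 (Tg c L) x, H.Rt_mem hT x, H.Rt_eq hT x⟩
  obtain ⟨C, hC, hCc, hzC⟩ := htight.image d hzmem
  have hC' : ∀ a : C, a.1 ∈ cl c ∅ ∨ ∃ β ∈ L, a.1 ∈ Sg c β := by
    intro a
    rcases hC a.2 with h' | h'
    · exact Or.inl h'
    · obtain ⟨β, hβ, h'⟩ := mem_iUnion₂.1 h'
      exact Or.inr ⟨β, hβ, h'⟩
  by_cases hb : ∃ β ∈ L, C ⊆ Sg c β
  · obtain ⟨β, hβ, hCβ⟩ := hb
    have hzβ : z ∈ closure (d '' Sg c β) := closure_mono (image_mono hCβ) hzC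
    have hsub : Sup d 𝓕 c x ∩ L ⊆ insert β (Sup d 𝓕 c x ∩ Iio β) := by
      rintro α ⟨hα, hαL⟩
      rcases lt_trichotomy α β with hlt | heq | hgt
      · exact Or.inr ⟨hα, hlt⟩
      · exact Or.inl heq
      · exfalso
        apply hα
        have h1 : Rt d 𝓕 (Sg c α) x = z := by
          refine H.Rt_unique (closedUnder_Sg α) (closure_mono (image_mono (Sg_mono hgt.le)) hzβ) ?_
          intro F hF g hg
          exact hzeq F (hF.trans (Sg_subset_Tg hαL)) g hg
        have h2 : Rt d 𝓕 (Tg c (Iio α)) x = z := by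
          have hβα : β ∈ Iio α := hgt
          refine H.Rt_unique (closedUnder_Tg _)
            (closure_mono (image_mono (Sg_subset_Tg hβα)) hzβ) ?_
          intro F hF g hg
          have hsubL : Iio α ⊆ L := fun b hb => hL α hαL b (le_of_lt hb)
          exact hzeq F (hF.trans (Tg_mono hsubL)) g hg
        rw [h1, h2]
    exact ((h β hβ).insert β).mono hsub
  · push Not at hb
    -- choose witnesses
    have hCc' : Countable C := hCc.to_subtype
    have hcover : Sup d 𝓕 c x ∩ L ⊆ ⋃ a : C, {α | α ∈ Sup d 𝓕 c x ∩ L ∧ a.1 ∉ Sg c α} := by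
      rintro α hα
      obtain ⟨a, haC, ha⟩ := not_subset.1 (hb α hα.2)
      exact mem_iUnion.2 ⟨⟨a, haC⟩, hα, ha⟩
    refine (countable_iUnion fun a : C => ?_).mono hcover
    rcases hC' a with h' | ⟨β, hβ, h'⟩
    · have : {α | α ∈ Sup d 𝓕 c x ∩ L ∧ a.1 ∉ Sg c α} = ∅ := by
        ext α
        simp only [mem_empty_iff_false, iff_false]
        rintro ⟨-, h2⟩
        exact h2 (cl_empty_subset_Sg α h')
      rw [this]
      exact countable_empty
    · refine (h β hβ).mono ?_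
      rintro α ⟨h1, h2⟩
      refine ⟨h1.1, ?_⟩
      by_contra hge
      have hle : β ≤ α := not_lt.1 hge
      exact h2 (Sg_mono hle h')

theorem ChainHyp.sup_countable [WellFoundedLT K] (H : ChainHyp d 𝓕 c) (htight : CTight X)
    (x : X) : (Sup d 𝓕 c x).Countable := by
  have h1 : ∀ l : K, (Sup d 𝓕 c x ∩ Iio l).Countable := by
    intro l
    induction l using WellFoundedLT.induction with
    | ind l ih =>
      exact H.sup_countable_aux htight x (Iio l) (fun a ha b hb => lt_of_le_of_lt hb ha) ih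
  have h2 := H.sup_countable_aux htight x univ (fun _ _ _ _ => trivial) fun β _ => h1 β
  rwa [inter_univ] at h2

theorem ChainHyp.isCorson [WellFoundedLT K] (H : ChainHyp d 𝓕 c) (htight : CTight X)
    (hd : ∀ x, x ∈ closure (range d)) (hcor : ∀ α, IsCorson (closure (d '' Sg c α))) :
    IsCorson X := by
  rcases isEmpty_or_nonempty K with hK | ⟨⟨α0⟩⟩
  · have hX : IsEmpty X := ⟨fun x => by
      have := hd x
      rw [range_eq_empty] at this
      simp at this⟩
    exact ⟨PEmpty, fun i => i.elim, fun i => i.elim, fun x => (hX.false x).elim,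
      fun x => (hX.false x).elim⟩
  choose I Φ hΦc hΦs hΦp using hcor
  have hS0 : ClosedUnder c (cl c ∅) := closedUnder_cl c _
  have m0 : ∀ x, Rt d 𝓕 (cl c ∅) x ∈ closure (d '' Sg c α0) := fun x =>
    closure_mono (image_mono (cl_empty_subset_Sg α0)) (H.Rt_mem hS0 x)
  have m1 : ∀ α x, Rt d 𝓕 (Sg c α) x ∈ closure (d '' Sg c α) := fun α x =>
    H.Rt_mem (closedUnder_Sg α) x
  have m2 : ∀ α x, Rt d 𝓕 (Tg c (Iio α)) x ∈ closure (d '' Sg c α) := fun α x =>
    closure_mono (image_mono (Tg_Iio_subset_Sg α)) (H.Rt_mem (closedUnder_Tg _) x)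
  let Ψ : I α0 ⊕ (Σ α, I α) → X → ℝ := fun i x =>
    match i with
    | Sum.inl i => Φ α0 i ⟨Rt d 𝓕 (cl c ∅) x, m0 x⟩
    | Sum.inr ⟨α, i⟩ => Φ α i ⟨Rt d 𝓕 (Sg c α) x, m1 α x⟩ -
        Φ α i ⟨Rt d 𝓕 (Tg c (Iio α)) x, m2 α x⟩
  refine ⟨I α0 ⊕ (Σ α, I α), Ψ, ?_, ?_, ?_⟩
  · rintro (i | ⟨α, i⟩)
    · exact (hΦc α0 i).comp ((H.Rt_continuous hS0).subtype_mk _)
    · exact ((hΦc α i).comp ((H.Rt_continuous (closedUnder_Sg α)).subtype_mk _)).sub
        ((hΦc α i).comp ((H.Rt_continuous (closedUnder_Tg _)).subtype_mk _))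
  · intro x y hxy
    have e0 : Rt d 𝓕 (cl c ∅) x = Rt d 𝓕 (cl c ∅) y := by
      have := hΦs α0 ⟨Rt d 𝓕 (cl c ∅) x, m0 x⟩ ⟨Rt d 𝓕 (cl c ∅) y, m0 y⟩
        (fun i => hxy (Sum.inl i))
      exact congrArg Subtype.val this
    have e1 : ∀ α, Rt d 𝓕 (Sg c α) x = Rt d 𝓕 (Sg c α) y := by
      intro α
      induction α using WellFoundedLT.induction with
      | ind α ih =>
        have e2 : Rt d 𝓕 (Tg c (Iio α)) x = Rt d 𝓕 (Tg c (Iio α)) y := by
          have hT : ClosedUnder c (Tg c (Iio α)) := closedUnder_Tg _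
          refine H.Rt_unique hT (H.Rt_mem hT y) ?_
          intro F hF g hg
          rw [H.Rt_eq hT y F hF g hg]
          rcases finset_subset_Tg F hF with h' | ⟨β, hβ, h'⟩
          · rw [← H.Rt_eq hS0 x F h' g hg, ← H.Rt_eq hS0 y F h' g hg, e0]
          · rw [← H.Rt_eq (closedUnder_Sg β) x F h' g hg,
              ← H.Rt_eq (closedUnder_Sg β) y F h' g hg, ih β hβ]
        have := hΦs α ⟨Rt d 𝓕 (Sg c α) x, m1 α x⟩ ⟨Rt d 𝓕 (Sg c α) y, m1 α y⟩ (fun i => by
          have h3 := hxy (Sum.inr ⟨α, i⟩)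
          simp only [Ψ] at h3
          have h4 : Φ α i ⟨Rt d 𝓕 (Tg c (Iio α)) x, m2 α x⟩ =
              Φ α i ⟨Rt d 𝓕 (Tg c (Iio α)) y, m2 α y⟩ := by
            congr 1
            exact Subtype.ext e2
          rw [h4] at h3
          exact sub_left_inj.1 h3)
        exact congrArg Subtype.val this
    by_contra hne
    have hu : ClosedUnder c (univ : Set K) := fun _ _ => subset_univ _
    obtain ⟨F, -, g, hg, hgne⟩ := H.sep univ hu x (by rw [image_univ]; exact hd x) y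
      (by rw [image_univ]; exact hd y) hne
    have hF : (F : Set K) ⊆ Tg c univ := fun a _ =>
      Sg_subset_Tg (mem_univ a) (subset_cl c _ (mem_Iic.2 le_rfl))
    rcases finset_subset_Tg F hF with h' | ⟨β, hβ, h'⟩
    · exact hgne (by rw [← H.Rt_eq hS0 x F h' g hg, ← H.Rt_eq hS0 y F h' g hg, e0])
    · exact hgne (by rw [← H.Rt_eq (closedUnder_Sg β) x F h' g hg,
        ← H.Rt_eq (closedUnder_Sg β) y F h' g hg, e1 β])
  · intro x
    have hsub : {i | Ψ i x ≠ 0} ⊆ (Sum.inl '' {i | Φ α0 i ⟨Rt d 𝓕 (cl c ∅) x, m0 x⟩ ≠ 0}) ∪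
        ⋃ α ∈ Sup d 𝓕 c x, (fun i => (Sum.inr ⟨α, i⟩ : I α0 ⊕ (Σ α, I α))) ''
          ({i | Φ α i ⟨Rt d 𝓕 (Sg c α) x, m1 α x⟩ ≠ 0} ∪
            {i | Φ α i ⟨Rt d 𝓕 (Tg c (Iio α)) x, m2 α x⟩ ≠ 0}) := by
      rintro (i | ⟨α, i⟩) hi
      · exact Or.inl ⟨i, hi, rfl⟩
      · right
        have hi' : Φ α i ⟨Rt d 𝓕 (Sg c α) x, m1 α x⟩ -
          Φ α i ⟨Rt d 𝓕 (Tg c (Iio α)) x, m2 α x⟩ ≠ 0 := hi
        refine mem_iUnion₂.2 ⟨α, ?_, i, ?_, rfl⟩
        · intro heq
          apply hi'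
          have : (⟨Rt d 𝓕 (Sg c α) x, m1 α x⟩ : closure (d '' Sg c α)) =
            ⟨Rt d 𝓕 (Tg c (Iio α)) x, m2 α x⟩ := Subtype.ext heq
          rw [this, sub_self]
        · by_contra hcon
          rw [mem_union, not_or] at hcon
          have h1 : Φ α i ⟨Rt d 𝓕 (Sg c α) x, m1 α x⟩ = 0 := not_not.1 hcon.1
          have h2 : Φ α i ⟨Rt d 𝓕 (Tg c (Iio α)) x, m2 α x⟩ = 0 := not_not.1 hcon.2
          exact hi' (by rw [h1, h2, sub_self])
    refine Countable.mono hsub (((hΦp α0 _).image _).union ?_)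
    exact (H.sup_countable htight x).biUnion fun α _ =>
      ((hΦp α _).union (hΦp α _)).image _

end ChainThm

end Pool.Agent.Helper73.Split
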