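import Pool.Agent.Helper73.Split.Gulko

/-!
# Colouring the countable subsets of a set with continuum many colours

Every set `I` admits `C : Set I → ℝ` such that `C s ≠ C t` whenever `s ⊂ t` are countable.
-/

open Set Cardinal Ordinal

universe u

namespace Pool.Agent.Helper73.Split

/-- A colouring distinguishing strictly nested countable subsets of `A`. -/
def GoodCol {I : Type u} (A : Set I) (C : Set I → ℝ) : Prop :=
  ∀ s t : Set I, s.Countable → t.Countable → s ⊆ t → t ⊆ A → ∀ i ∈ t, i ∉ s → C s ≠ C t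

theorem exists_code {α : Type u} (h : #α ≤ 𝔠) : Nonempty (α ↪ ℝ) := by
  refine Cardinal.lift_mk_le'.1 ?_
  rw [mk_real, lift_continuum, Cardinal.lift_uzero]
  exact h

theorem nonempty_code_seq : Nonempty ((ℕ → ℝ) ↪ ℝ) := by
  refine exists_code ?_
  have : #(ℕ → ℝ) = 𝔠 := by simp [mk_real]
  exact this.le

theorem nonempty_code_pair : Nonempty ((ℝ × ℝ) ↪ ℝ) := by
  refine exists_code ?_
  have : #(ℝ × ℝ) = 𝔠 := by simp [mk_real]
  exact this.le

theorem nonempty_code_optseq : Nonempty ((ℕ → Option ℝ) ↪ ℝ) := by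
  refine exists_code ?_
  have : #(ℕ → Option ℝ) = 𝔠 := by simp [mk_real, Cardinal.add_one_eq aleph0_le_continuum]
  exact this.le

/-- Codes for countable ordinals. -/
theorem exists_code_ord : ∃ f : Ordinal.{u} → ℝ, ∀ a b : Ordinal.{u}, a.card ≤ ℵ₀ → b.card ≤ ℵ₀ →
    f a = f b → a = b := by
  classical
  have h : Nonempty ((ℵ₁ : Cardinal.{u}).ord.ToType ↪ ℝ) := by
    refine exists_code ?_
    rw [mk_ord_toType]
    have : ℵ₁ ≤ 𝔠 := aleph_one_le_continuum
    simpa using this
  obtain ⟨e⟩ := h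
  have hlt : ∀ a : Ordinal.{u}, a.card ≤ ℵ₀ → a ∈ Iio (ℵ₁ : Cardinal.{u}).ord := by
    intro a ha
    rw [mem_Iio, lt_ord]
    refine ha.trans_lt ?_
    rw [← aleph_zero]
    exact aleph_lt_aleph.2 zero_lt_one
  refine ⟨fun a => if h : a.card ≤ ℵ₀ then e (ToType.mk ⟨a, hlt a h⟩) else 0, ?_⟩
  intro a b ha hb hab
  simp only [dif_pos ha, dif_pos hb] at hab
  have := ToType.mk.injective (e.injective hab)
  exact congrArg Subtype.val this

theorem otp_lt {K : Type u} [LinearOrder K] [WellFoundedLT K] {s t : Set K} (hst : s ⊆ t) {j : K}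
    (hj : j ∈ t) (h : s ⊆ Iio j) :
    Ordinal.type (α := s) (· < ·) < Ordinal.type (α := t) (· < ·) := by
  refine lt_of_le_of_lt ?_ (typein_lt_type (α := t) (· < ·) ⟨j, hj⟩)
  rw [← type_subrel, type_le_iff']
  refine ⟨⟨⟨fun x => ⟨⟨x.1, hst x.2⟩, h x.2⟩, ?_⟩, ?_⟩⟩
  · intro x y hxy
    have : x.1 = y.1 := congrArg (fun z => z.1.1) hxy
    exact Subtype.ext this
  · intro x y
    exact Iff.rfl

theorem exists_goodCol_small {I : Type u} (f : I ↪ ℝ) : ∃ C : Set I → ℝ, GoodCol univ C := by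
  classical
  obtain ⟨e⟩ := nonempty_code_optseq
  have h : ∀ s : Set I, s.Countable → ∃ g : ℕ → Option ℝ, ∀ i, i ∈ s ↔ ∃ n, g n = some (f i) := by
    intro s hs
    have hs' : Countable s := hs.to_subtype
    rcases isEmpty_or_nonempty s with he | hne
    · refine ⟨fun _ => none, fun i => ⟨fun hi => (he.false ⟨i, hi⟩).elim, ?_⟩⟩
      rintro ⟨n, hn⟩
      simp at hn
    · obtain ⟨g, hg⟩ := exists_surjective_nat s
      refine ⟨fun n => some (f (g n).1), fun i => ⟨fun hi => ?_, ?_⟩⟩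
      · obtain ⟨n, hn⟩ := hg ⟨i, hi⟩
        exact ⟨n, by simp only [hn]⟩
      · rintro ⟨n, hn⟩
        have := f.injective (Option.some.inj hn)
        rw [← this]
        exact (g n).2
  choose! g hg using h
  refine ⟨fun s => e (g s), ?_⟩
  intro s t hs ht _ _ i hi his heq
  have := e.injective heq
  apply his
  rw [hg s hs, this, ← hg t ht]
  exact hi

theorem GoodCol.mono {I : Type u} {A B : Set I} {C : Set I → ℝ} (h : GoodCol B C) (hAB : A ⊆ B) :
    GoodCol A C :=
  fun s t hs ht hst htA i hi his => h s t hs ht hst (htA.trans hAB) i hi his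

/-- Transport a colouring along an injection. -/
theorem GoodCol.comap {I J : Type u} {C : Set J → ℝ} {B : Set J} (h : GoodCol B C) (f : I → J)
    (hf : Function.Injective f) : GoodCol (f ⁻¹' B) (fun s => C (f '' s)) := by
  intro s t hs ht hst htA i hi his
  refine h (f '' s) (f '' t) (hs.image f) (ht.image f) (image_mono hst)
    (image_subset_iff.2 htA) (f i) (mem_image_of_mem f hi) ?_
  rintro ⟨j, hj, hji⟩
  exact his (hf hji ▸ hj)

theorem GoodCol.ofSubtype {K : Type u} {A : Set K} {C : Set A → ℝ} (h : GoodCol univ C) :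
    GoodCol A (fun s => C (Subtype.val ⁻¹' s)) := by
  intro s t hs ht hst htA i hi his
  exact h (Subtype.val ⁻¹' s) (Subtype.val ⁻¹' t)
    (hs.preimage Subtype.val_injective) (ht.preimage Subtype.val_injective)
    (preimage_mono hst) (subset_univ _) ⟨i, htA hi⟩ hi his

theorem exists_goodCol_cof {K : Type u} [LinearOrder K] (a : ℕ → K) (ha : ∀ i, ∃ n, i ≤ a n)
    (h : ∀ i : K, ∃ C : Set K → ℝ, GoodCol (Iic i) C) : ∃ C : Set K → ℝ, GoodCol univ C := by
  obtain ⟨e⟩ := nonempty_code_seq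
  choose C hC using h
  refine ⟨fun s => e (fun n => C (a n) (s ∩ Iic (a n))), ?_⟩
  intro s t hs ht hst _ i hi his heq
  have h1 := e.injective heq
  obtain ⟨n, hn⟩ := ha i
  have h2 : C (a n) (s ∩ Iic (a n)) = C (a n) (t ∩ Iic (a n)) := congrFun h1 n
  exact hC (a n) (s ∩ Iic (a n)) (t ∩ Iic (a n)) (hs.mono inter_subset_left)
    (ht.mono inter_subset_left) (inter_subset_inter_left _ hst) inter_subset_right i ⟨hi, hn⟩
    (fun h => his h.1) h2

theorem exists_goodCol_bdd {K : Type u} [LinearOrder K] [WellFoundedLT K]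
    (hb : ∀ s : Set K, s.Countable → ∃ i, ∀ j ∈ s, j < i)
    (h : ∀ i : K, ∃ C : Set K → ℝ, GoodCol (Iic i) C) : ∃ C : Set K → ℝ, GoodCol univ C := by
  classical
  obtain ⟨e⟩ := nonempty_code_pair
  obtain ⟨f, hf⟩ := exists_code_ord.{u}
  choose C hC using h
  have hδ : ∀ s : Set K, s.Countable → ∃ i, (∀ j ∈ s, j < i) ∧ ∀ i', (∀ j ∈ s, j < i') → i ≤ i' := by
    intro s hs
    obtain ⟨m, hm, hmin⟩ := WellFounded.has_min (wellFounded_lt (α := K)) {i | ∀ j ∈ s, j < i}
      (hb s hs)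
    exact ⟨m, hm, fun i' hi' => not_lt.1 (hmin i' hi')⟩
  rcases isEmpty_or_nonempty K with hK | hK
  · exact ⟨fun _ => 0, fun s t _ _ _ _ i => (hK.false i).elim⟩
  choose! δ hδ1 hδ2 using hδ
  refine ⟨fun s => e (f (Ordinal.type (α := s) (· < ·)), C (δ s) s), ?_⟩
  intro s t hs ht hst _ i hi his heq
  have h1 := e.injective heq
  have h2 : f (Ordinal.type (α := s) (· < ·)) = f (Ordinal.type (α := t) (· < ·)) :=
    congrArg Prod.fst h1
  have h3 : C (δ s) s = C (δ t) t := congrArg Prod.snd h1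
  have h4 : Ordinal.type (α := s) (· < ·) = Ordinal.type (α := t) (· < ·) := by
    refine hf _ _ ?_ ?_ h2
    · rw [card_type]
      exact hs.le_aleph0
    · rw [card_type]
      exact ht.le_aleph0
  have h5 : δ s = δ t := by
    refine le_antisymm (hδ2 s hs _ fun j hj => hδ1 t ht j (hst hj)) ?_
    refine hδ2 t ht _ fun j hj => ?_
    by_contra hcon
    have hle : δ s ≤ j := not_lt.1 hcon
    have := otp_lt hst hj (fun x hx => lt_of_lt_of_le (hδ1 s hs x hx) hle)
    rw [h4] at this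
    exact lt_irrefl _ this
  rw [← h5] at h3
  refine hC (δ s) s t hs ht hst ?_ i hi his h3
  intro j hj
  rw [h5]
  exact (hδ1 t ht j hj).le

theorem exists_goodCol_step {k : Cardinal.{u}} {K : Type u} [LinearOrder K] [WellFoundedLT K]
    (hK : ∀ i : K, #(Iic i) < k)
    (ih : ∀ J : Type u, #J < k → ∃ C : Set J → ℝ, GoodCol univ C) :
    ∃ C : Set K → ℝ, GoodCol univ C := by
  have h : ∀ i : K, ∃ C : Set K → ℝ, GoodCol (Iic i) C := by
    intro i
    obtain ⟨C, hC⟩ := ih (Iic i) (hK i)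
    exact ⟨_, hC.ofSubtype⟩
  by_cases hb : ∀ s : Set K, s.Countable → ∃ i, ∀ j ∈ s, j < i
  · exact exists_goodCol_bdd hb h
  · push Not at hb
    obtain ⟨s, hs, hb⟩ := hb
    rcases isEmpty_or_nonempty K with hK' | ⟨⟨i0⟩⟩
    · exact ⟨fun _ => 0, fun s t _ _ _ _ i => (hK'.false i).elim⟩
    have hne : s.Nonempty := by
      obtain ⟨j, hj, -⟩ := hb i0
      exact ⟨j, hj⟩
    obtain ⟨a, ha⟩ := hs.exists_eq_range hne
    refine exists_goodCol_cof a (fun i => ?_) h
    obtain ⟨j, hj, hij⟩ := hb i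
    rw [ha] at hj
    obtain ⟨n, rfl⟩ := hj
    exact ⟨n, hij⟩

theorem exists_goodCol_aux (k : Cardinal.{u}) : ∀ I : Type u, #I = k →
    ∃ C : Set I → ℝ, GoodCol univ C := by
  classical
  induction k using WellFoundedLT.induction with
  | ind k ih =>
    intro I hI
    by_cases hk : Nonempty (I ↪ ℝ)
    · exact exists_goodCol_small hk.some
    have hk' : ℵ₀ < k := by
      by_contra hcon
      apply hk
      refine exists_code ?_
      rw [hI]
      exact (not_lt.1 hcon).trans aleph0_le_continuum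
    have he : #(k.ord.ToType) = #I := by rw [mk_ord_toType, hI]
    obtain ⟨e⟩ := Cardinal.eq.1 he
    obtain ⟨C, hC⟩ := exists_goodCol_step (K := k.ord.ToType)
      (fun i => mk_Iic_lt hk' mk_Iio_ord i) (fun J hJ => ih _ hJ J rfl)
    exact ⟨_, hC.comap e.symm e.symm.injective⟩

/-- Colouring lemma. -/
theorem exists_goodCol (I : Type u) : ∃ C : Set I → ℝ, ∀ s t : Set I, s.Countable → t.Countable →
    s ⊆ t → C s = C t → s = t := by
  obtain ⟨C, hC⟩ := exists_goodCol_aux _ I rfl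
  refine ⟨C, fun s t hs ht hst h => ?_⟩
  by_contra hne
  obtain ⟨i, hi, his⟩ := exists_of_ssubset (hst.ssubset_of_ne hne)
  exact hC s t hs ht hst (subset_univ _) i hi his h

end Pool.Agent.Helper73.Split
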