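import Pool.Agent.Helper73.Split.Splittable

/-!
# Splittable Corson compacta are Gul'ko compact
-/

open Set Filter Topology TopologicalSpace Cardinal

universe u

namespace Pool.Agent.Helper73.Split

/-- A continuous function on a compact space depends on countably many members of a separating
family of continuous functions. -/
theorem exists_countable_dep {X : Type u} [TopologicalSpace X] [CompactSpace X] {I : Type u}
    (Φ : I → X → ℝ) (hΦ : ∀ i, Continuous (Φ i)) (hsep : ∀ x y, (∀ i, Φ i x = Φ i y) → x = y)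
    (g : X → ℝ) (hg : Continuous g) :
    ∃ J : Set I, J.Countable ∧ ∀ x y, (∀ i ∈ J, Φ i x = Φ i y) → g x = g y := by
  have key : ∀ n : ℕ, ∃ t : Finset I, {p : X × X | 1 / ((n : ℝ) + 1) ≤ |g p.1 - g p.2|} ⊆
      ⋃ i ∈ t, {p : X × X | Φ i p.1 ≠ Φ i p.2} := by
    intro n
    have hE : IsClosed {p : X × X | 1 / ((n : ℝ) + 1) ≤ |g p.1 - g p.2|} :=
      isClosed_le continuous_const
        (continuous_abs.comp ((hg.comp continuous_fst).sub (hg.comp continuous_snd)))
    refine hE.isCompact.elim_finite_subcover (fun i => {p : X × X | Φ i p.1 ≠ Φ i p.2})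
      (fun i => ?_) ?_
    · exact isOpen_ne_fun ((hΦ i).comp continuous_fst) ((hΦ i).comp continuous_snd)
    · rintro ⟨x, y⟩ hxy
      by_contra hcon
      rw [mem_iUnion] at hcon
      push Not at hcon
      have h1 : x = y := hsep x y fun i => by
        by_contra hne
        exact hcon i hne
      have h2 : 1 / ((n : ℝ) + 1) ≤ |g x - g y| := hxy
      rw [h1, sub_self, abs_zero] at h2
      have : (0 : ℝ) < 1 / ((n : ℝ) + 1) := by positivity
      linarith
  choose t ht using key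
  refine ⟨⋃ n, (t n : Set I), countable_iUnion fun n => (t n).countable_toSet, ?_⟩
  intro x y hxy
  by_contra hne
  have hpos : 0 < |g x - g y| := abs_pos.2 (sub_ne_zero.2 hne)
  obtain ⟨n, hn⟩ := exists_nat_one_div_lt hpos
  have h1 : (x, y) ∈ ⋃ i ∈ t n, {p : X × X | Φ i p.1 ≠ Φ i p.2} := ht n hn.le
  obtain ⟨i, hi, hne'⟩ := mem_iUnion₂.1 h1
  exact hne' (hxy i (mem_iUnion.2 ⟨n, hi⟩))

/-- Fibres of a splitting map of the support colouring are small. -/
theorem exists_fiber_dep {X Y : Type u} [TopologicalSpace X] [CompactSpace X]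
    {I : Type u} (Φ : I → X → ℝ) (hΦ : ∀ i, Continuous (Φ i))
    (hsep : ∀ x y, (∀ i, Φ i x = Φ i y) → x = y) (hcount : ∀ x, {i | Φ i x ≠ 0}.Countable)
    (C : Set I → ℝ) (hC : ∀ s t : Set I, s.Countable → t.Countable → s ⊆ t → C s = C t → s = t)
    (f : X → Y) (Γ : Finset X → ℕ → X → ℝ) (hΓc : ∀ F n, Continuous (Γ F n))
    (hΓf : ∀ F n x y, f x = f y → Γ F n x = Γ F n y)
    (hΓs : ∀ (A : Set X) (x y : X), x ∈ closure A → y ∈ closure A → f x ≠ f y →
        ∃ F : Finset X, (F : Set X) ⊆ A ∧ ∃ n, Γ F n x ≠ Γ F n y)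
    (hf : ∀ x y, f x = f y → C {i | Φ i x ≠ 0} = C {i | Φ i y ≠ 0}) (x₀ : X) :
    ∃ J : Set I, J.Countable ∧
      ∀ x y, f x = f x₀ → f y = f x₀ → (∀ i ∈ J, Φ i x = Φ i y) → x = y := by
  classical
  choose dep hdepc hdep using fun (F : Finset X) (n : ℕ) =>
    exists_countable_dep Φ hΦ hsep (Γ F n) (hΓc F n)
  let J : Finset X → Set I := fun F =>
    (⋃ p ∈ F, {i | Φ i p ≠ 0}) ∪ ⋃ G ∈ F.powerset, ⋃ n : ℕ, dep G n
  have hJc : ∀ F, (J F).Countable := by
    intro F
    refine Countable.union ?_ ?_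
    · exact F.countable_toSet.biUnion fun p _ => hcount p
    · exact F.powerset.countable_toSet.biUnion fun G _ => countable_iUnion fun n => hdepc G n
  have hJsupp : ∀ F, ∀ p ∈ F, ∀ i, Φ i p ≠ 0 → i ∈ J F := fun F p hp i hi =>
    Or.inl (mem_iUnion₂.2 ⟨p, hp, hi⟩)
  have hJdep : ∀ F, ∀ n, ∀ i ∈ dep F n, i ∈ J F := fun F n i hi =>
    Or.inr (mem_iUnion₂.2 ⟨F, Finset.mem_powerset_self F, mem_iUnion.2 ⟨n, hi⟩⟩)
  have hJmono : ∀ F G, F ⊆ G → J F ⊆ J G := by
    intro F G hFG i hi
    rcases hi with hi | hi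
    · obtain ⟨p, hp, hi⟩ := mem_iUnion₂.1 hi
      exact Or.inl (mem_iUnion₂.2 ⟨p, hFG hp, hi⟩)
    · obtain ⟨H, hH, hi⟩ := mem_iUnion₂.1 hi
      exact Or.inr (mem_iUnion₂.2 ⟨H, Finset.powerset_mono.2 hFG hH, hi⟩)
  let 𝓕 : Finset X → Set (X → ℝ) := fun F => Φ '' J F
  have hcont : ∀ F, ∀ g ∈ 𝓕 F, Continuous g := by
    rintro F g ⟨i, -, rfl⟩
    exact hΦ i
  have hmono : ∀ F G, F ⊆ G → 𝓕 F ⊆ 𝓕 G := fun F G hFG => image_mono (hJmono F G hFG)
  have hcnt : ∀ F, (𝓕 F).Countable := fun F => (hJc F).image _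
  let d : X → X := fun x => x
  have hd : (Set.univ : Set X) ⊆ closure (range d) := by
    have : range d = Set.univ := range_id
    rw [this, closure_univ]
  choose c hcc hcd using fun F =>
    exists_countable_fiber_dense d Set.univ hd (𝓕 F) (hcnt F) (hcont F)
  have hS : ClosedUnder c (cl c {x₀}) := closedUnder_cl c _
  have hScount : (cl c {x₀}).Countable := by
    rw [← Cardinal.le_aleph0_iff_set_countable]
    refine mk_cl_le c le_rfl ?_ fun F => (hcc F).le_aleph0
    rw [mk_singleton]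
    exact one_lt_aleph0.le
  obtain ⟨S, hSdef⟩ : ∃ S, S = cl c {x₀} := ⟨_, rfl⟩
  rw [← hSdef] at hS hScount
  have hx₀ : x₀ ∈ S := by
    rw [hSdef]
    exact subset_cl c _ rfl
  have hdS : d '' S = S := image_id' S
  have hx₀' : x₀ ∈ closure S := subset_closure hx₀
  have hcS : Countable S := hScount.to_subtype
  let JS : Set I := ⋃ G : Finset S, J (G.map (Function.Embedding.subtype _))
  have hJS : ∀ F : Finset X, (F : Set X) ⊆ S → J F ⊆ JS := by
    intro F hF
    have h1 : (F.subtype (· ∈ S)).map (Function.Embedding.subtype _) = F := by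
      ext a
      simp only [Finset.subtype_map, Finset.mem_filter, and_iff_left_iff_imp]
      exact fun ha => hF ha
    intro i hi
    refine mem_iUnion.2 ⟨F.subtype (· ∈ S), ?_⟩
    rw [h1]
    exact hi
  have hvan : ∀ z ∈ closure S, ∀ i ∉ JS, Φ i z = 0 := by
    intro z hz i hi
    have h1 : S ⊆ {z | Φ i z = 0} := by
      intro p hp
      by_contra hne
      exact hi (hJS {p} (by simpa using hp) (hJsupp {p} p (Finset.mem_singleton_self p) i hne))
    exact closure_minimal h1 (isClosed_eq (hΦ i) continuous_const) hz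
  have key : ∀ x, f x = f x₀ → ∀ i ∉ JS, Φ i x = 0 := by
    intro x hx
    obtain ⟨z, hz, hzx⟩ := exists_fiber_of_closed d 𝓕 hcont hmono c x
      (fun F => hcd F x (mem_univ x)) hS
    rw [hdS] at hz
    have hzJ : ∀ F : Finset X, (F : Set X) ⊆ S → ∀ i ∈ J F, Φ i z = Φ i x := fun F hF i hi =>
      hzx F hF _ ⟨i, hi, rfl⟩
    have hzJS : ∀ i ∈ JS, Φ i z = Φ i x := by
      intro i hi
      obtain ⟨G, hi⟩ := mem_iUnion.1 hi
      refine hzJ _ ?_ i hi
      intro a ha
      simp only [Finset.coe_map, Function.Embedding.subtype_apply, mem_image, Finset.mem_coe] at ha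
      obtain ⟨b, -, rfl⟩ := ha
      exact b.2
    have hfz : f z = f x₀ := by
      by_contra hne
      obtain ⟨G, hG, n, hn⟩ := hΓs S z x₀ hz hx₀' hne
      apply hn
      rw [← hΓf G n x x₀ hx]
      exact hdep G n z x fun i hi => hzJ G hG i (hJdep G n i hi)
    have hCeq : C {i | Φ i z ≠ 0} = C {i | Φ i x ≠ 0} := hf z x (hfz.trans hx.symm)
    have hsub : {i | Φ i z ≠ 0} ⊆ {i | Φ i x ≠ 0} := by
      intro i hi
      have hi' : Φ i z ≠ 0 := hi
      have hiJ : i ∈ JS := by
        by_contra hcon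
        exact hi' (hvan z hz i hcon)
      have : Φ i x ≠ 0 := by rwa [← hzJS i hiJ]
      exact this
    have heq := hC _ _ (hcount z) (hcount x) hsub hCeq
    intro i hi
    by_contra hne
    have h2 : i ∈ {i | Φ i x ≠ 0} := hne
    rw [← heq] at h2
    exact h2 (hvan z hz i hi)
  refine ⟨JS, countable_iUnion fun G => hJc _, ?_⟩
  intro x y hx hy hxy
  refine hsep x y fun i => ?_
  by_cases hi : i ∈ JS
  · exact hxy i hi
  · rw [key x hx i hi, key y hy i hi]

theorem exists_code_of_countable {X : Type u} {I : Type u} (Φ : I → X → ℝ) {J : Set I}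
    (hJ : J.Countable) : ∃ e : X → ℝ, ∀ x y, e x = e y → ∀ i ∈ J, Φ i x = Φ i y := by
  obtain ⟨code⟩ := nonempty_code_seq
  rcases J.eq_empty_or_nonempty with rfl | hne
  · exact ⟨fun _ => 0, fun x y _ i hi => hi.elim⟩
  · obtain ⟨a, ha⟩ := hJ.exists_eq_range hne
    refine ⟨fun x => code fun n => Φ (a n) x, fun x y hxy i hi => ?_⟩
    rw [ha] at hi
    obtain ⟨n, rfl⟩ := hi
    exact congrFun (code.injective hxy) n

/-- A Corson compact space which is splittable over Gul'ko compacta is Gul'ko compact. -/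
theorem Splittable.isGulko_of_isCorson {X : Type u} [TopologicalSpace X] [CompactSpace X]
    [T2Space X] (h : Splittable X) (hX : IsCorson X) : IsGulko X := by
  classical
  obtain ⟨I, Φ, hΦ, hsep, hcount⟩ := hX
  obtain ⟨C, hC⟩ := exists_goodCol I
  obtain ⟨Y, tY, f, hY, hf, hcol⟩ := h.color fun x => C {i | Φ i x ≠ 0}
  obtain ⟨Γ, hΓc, hΓf, hΓs⟩ := exists_gamma_of_map hY.hasGamma f hf
  have hfib : ∀ x₀ : X, ∃ e : X → ℝ, ∀ x y, f x = f x₀ → f y = f x₀ → e x = e y → x = y := by
    intro x₀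
    obtain ⟨J, hJc, hJ⟩ := exists_fiber_dep Φ hΦ hsep hcount C hC f Γ hΓc hΓf hΓs hcol x₀
    obtain ⟨e, he⟩ := exists_code_of_countable Φ hJc
    exact ⟨e, fun x y hx hy hxy => hJ x y hx hy (he x y hxy)⟩
  choose e he using hfib
  -- representatives of fibres
  have hrep : ∀ y : range f, ∃ x, f x = y.1 := fun y => y.2
  choose s hs using hrep
  let r : X → X := fun x => s ⟨f x, x, rfl⟩
  have hr : ∀ x, f (r x) = f x := fun x => hs _
  have hr' : ∀ x y, f x = f y → r x = r y := by
    intro x y hxy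
    have : (⟨f x, x, rfl⟩ : range f) = ⟨f y, y, rfl⟩ := Subtype.ext hxy
    simp only [r, this]
  obtain ⟨Y', tY', f', hY', hf', hcol'⟩ := h.color fun x => e (r x) x
  have hinj : ∀ x y, f x = f y → f' x = f' y → x = y := by
    intro x y hxy hxy'
    have h1 : e (r x) x = e (r y) y := hcol' x y hxy'
    rw [← hr' x y hxy] at h1
    exact he (r x) x y (hr x).symm (hxy ▸ (hr x).symm) h1
  -- combine the two maps
  let Z : Bool → Type u := fun b => if b then Y else Y'
  let tZ : ∀ b, TopologicalSpace (Z b) := fun b => match b with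
    | true => tY
    | false => tY'
  let F : ∀ b, X → Z b := fun b => match b with
    | true => f
    | false => f'
  refine isGulko_of_joint (ι := Bool) Z ?_ F ?_ ?_
  · rintro (_ | _)
    · exact hY'
    · exact hY
  · rintro (_ | _)
    · exact hf'
    · exact hf
  · intro x y hxy
    exact hinj x y (hxy true) (hxy false)

end Pool.Agent.Helper73.Split
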