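import Pool.Agent.Helper73.Split.Chain

/-!
# The property `HasGamma` implies Corson compactness
-/

open Set Filter Topology TopologicalSpace Cardinal

universe u

namespace Pool.Agent.Helper73.Split

/-- Functions `Γ G n` with `G` a finite subset of `S`. -/
def GF {X : Type u} (Γ : Finset X → ℕ → X → ℝ) (S : Set X) : Set (X → ℝ) :=
  {g | ∃ G : Finset X, (G : Set X) ⊆ S ∧ ∃ n, g = Γ G n}

theorem GF_mono {X : Type u} (Γ : Finset X → ℕ → X → ℝ) {S T : Set X} (h : S ⊆ T) :
    GF Γ S ⊆ GF Γ T := by
  rintro g ⟨G, hG, n, rfl⟩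
  exact ⟨G, hG.trans h, n, rfl⟩

theorem GF_countable {X : Type u} (Γ : Finset X → ℕ → X → ℝ) {S : Set X} (h : S.Countable) :
    (GF Γ S).Countable := by
  classical
  have : Countable S := h.to_subtype
  refine (countable_range fun p : Finset S × ℕ => Γ (p.1.map (Function.Embedding.subtype _)) p.2).mono ?_
  rintro g ⟨G, hG, n, rfl⟩
  refine ⟨(G.subtype (· ∈ S), n), ?_⟩
  have : (G.subtype (· ∈ S)).map (Function.Embedding.subtype _) = G := by
    ext a
    simp only [Finset.subtype_map, Finset.mem_filter, and_iff_left_iff_imp]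
    exact fun ha => hG ha
  simp only [this]

theorem HasGamma.subspace {X : Type u} [TopologicalSpace X] (h : HasGamma X) (Z : Set X) :
    HasGamma Z := by
  classical
  obtain ⟨Γ, hc, hs⟩ := h
  refine ⟨fun F n z => Γ (F.map (Function.Embedding.subtype _)) n z.1,
    fun F n => (hc _ n).comp continuous_subtype_val, ?_⟩
  intro A x y hx hy hxy
  rw [closure_subtype] at hx hy
  obtain ⟨F, hF, n, hn⟩ := hs _ _ _ hx hy (fun h => hxy (Subtype.ext h))
  obtain ⟨G, hG, rfl⟩ := Finset.subset_set_image_iff.1 hF
  refine ⟨G, hG, n, ?_⟩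
  have he : G.map (Function.Embedding.subtype (· ∈ Z)) = G.image Subtype.val := by
    ext a; simp
  have he' : Γ (G.map (Function.Embedding.subtype (· ∈ Z))) n = Γ (G.image Subtype.val) n := by
    rw [he]
  have h1 : Γ (G.map (Function.Embedding.subtype (· ∈ Z))) n x.1 ≠
      Γ (G.map (Function.Embedding.subtype (· ∈ Z))) n y.1 := by
    rw [he']; exact hn
  exact h1

theorem HasGamma.cTight {X : Type u} [TopologicalSpace X] [CompactSpace X]
    (h : HasGamma X) : CTight X := by
  classical
  obtain ⟨Γ, hc, hs⟩ := h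
  intro A x hx
  let d : A → X := Subtype.val
  let 𝓕 : Finset A → Set (X → ℝ) := fun F => GF Γ (insert x (d '' F))
  have hcont : ∀ F, ∀ g ∈ 𝓕 F, Continuous g := by
    rintro F g ⟨G, -, n, rfl⟩
    exact hc G n
  have hmono : ∀ F G, F ⊆ G → 𝓕 F ⊆ 𝓕 G := fun F G hFG =>
    GF_mono Γ (insert_subset_insert (image_mono (Finset.coe_subset.2 hFG)))
  have hcount : ∀ F, (𝓕 F).Countable := fun F =>
    GF_countable Γ (((F.countable_toSet).image _).insert _)
  have hr : ({x} : Set X) ⊆ closure (range d) := by
    rw [singleton_subset_iff]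
    simpa [d] using hx
  choose c hcc hcd using fun F =>
    exists_countable_fiber_dense d {x} hr (𝓕 F) (hcount F) (hcont F)
  have hS := closedUnder_cl c ∅
  obtain ⟨z, hz, hzx⟩ := exists_fiber_of_closed d 𝓕 hcont hmono c x
    (fun F => hcd F x rfl) hS
  have hScount : (cl c ∅).Countable := by
    rw [← Cardinal.le_aleph0_iff_set_countable]
    refine mk_cl_le c le_rfl (by simp) fun F => ?_
    exact (hcc F).le_aleph0
  refine ⟨d '' cl c ∅, ?_, hScount.image _, ?_⟩
  · rintro _ ⟨a, -, rfl⟩
    exact a.2
  · by_contra hne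
    have hxz : x ≠ z := by
      rintro rfl
      exact hne hz
    obtain ⟨G, hG, n, hn⟩ := hs (insert x (d '' cl c ∅)) x z (subset_closure (mem_insert _ _))
      (closure_mono (subset_insert _ _) hz) hxz
    let F : Finset A := (G.subtype (· ∈ A)).filter (· ∈ cl c ∅)
    have hF : (F : Set A) ⊆ cl c ∅ := by
      intro a ha
      simpa [F] using (Finset.mem_filter.1 ha).2
    have hGF : (G : Set X) ⊆ insert x (d '' F) := by
      intro a ha
      rcases hG ha with h' | ⟨b, hb, rfl⟩
      · exact Or.inl h'
      · refine Or.inr ⟨b, ?_, rfl⟩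
        have : b ∈ F := by
          simp only [F, Finset.mem_filter, Finset.mem_subtype]
          exact ⟨ha, hb⟩
        exact this
    exact hn (hzx F hF _ ⟨G, hGF, n, rfl⟩).symm

theorem dense_preimage_closure {X : Type u} [TopologicalSpace X] (A : Set X) :
    Dense ((Subtype.val : closure A → X) ⁻¹' A) := by
  rw [Subtype.dense_iff]
  intro x hx
  have : (Subtype.val : closure A → X) '' (Subtype.val ⁻¹' A) = A := by
    rw [Subtype.image_preimage_coe, inter_eq_right]
    exact subset_closure
  rw [this]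
  exact hx

theorem mk_preimage_closure {X : Type u} [TopologicalSpace X] (A : Set X) :
    #((Subtype.val : closure A → X) ⁻¹' A) ≤ #A :=
  mk_preimage_of_injective _ _ Subtype.val_injective

theorem mk_Iio_ord {k : Cardinal.{u}} (i : k.ord.ToType) : #(Iio i) < k := by
  have h := Cardinal.mk_Iio_lt i (by rw [mk_ord_toType, Ordinal.type_toType])
  rwa [mk_ord_toType] at h

theorem mk_Iic_lt {k : Cardinal.{u}} (hk : ℵ₀ < k) {K : Type u} [LinearOrder K]
    (hK : ∀ i : K, #(Iio i) < k) (i : K) : #(Iic i) < k := by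
  have h : (Iic i : Set K) = insert i (Iio i) := Iio_insert.symm
  rw [h]
  refine (mk_insert_le).trans_lt ?_
  exact add_lt_of_lt hk.le (hK i) (one_lt_aleph0.trans hk)

theorem finset_image_of_subset {X : Type u} {K : Type u} (d : K → X) {S : Set K}
    {G : Finset X} (hG : (G : Set X) ⊆ d '' S) :
    ∃ F : Finset K, (F : Set K) ⊆ S ∧ (G : Set X) ⊆ d '' F := by
  classical
  obtain ⟨F, hF, rfl⟩ := Finset.subset_set_image_iff.1 hG
  exact ⟨F, hF, by simp⟩

theorem isCorson_countable_dense {X : Type u} [TopologicalSpace X] (h : HasGamma X)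
    {D : Set X} (hD : Dense D) (hDc : D.Countable) : IsCorson X := by
  obtain ⟨Γ, hc, hs⟩ := h
  have hcount : (GF Γ D).Countable := GF_countable Γ hDc
  have : Countable (GF Γ D) := hcount.to_subtype
  refine ⟨GF Γ D, fun g => g.1, ?_, ?_, fun x => Set.to_countable _⟩
  · rintro ⟨_, G, -, n, rfl⟩
    exact hc G n
  · intro x y hxy
    by_contra hne
    obtain ⟨G, hG, n, hn⟩ := hs D x y (hD x) (hD y) hne
    exact hn (hxy ⟨Γ G n, G, hG, n, rfl⟩)

theorem isCorson_of_hasGamma_step {X : Type u} [TopologicalSpace X] [CompactSpace X] [T2Space X]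
    (h : HasGamma X) {k : Cardinal.{u}} (hk : ℵ₀ < k) {K : Type u} [LinearOrder K]
    [WellFoundedLT K] (hK : ∀ i : K, #(Iio i) < k) (d : K → X)
    (hd : ∀ x, x ∈ closure (range d))
    (ih : ∀ A : Set X, #A < k → IsCorson (closure A)) : IsCorson X := by
  classical
  have htight : CTight X := h.cTight
  obtain ⟨Γ, hc, hs⟩ := h
  let 𝓕 : Finset K → Set (X → ℝ) := fun F => GF Γ (d '' F)
  have hcont : ∀ F, ∀ g ∈ 𝓕 F, Continuous g := by
    rintro F g ⟨G, -, n, rfl⟩
    exact hc G n
  have hmono : ∀ F G, F ⊆ G → 𝓕 F ⊆ 𝓕 G := fun F G hFG =>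
    GF_mono Γ (image_mono (Finset.coe_subset.2 hFG))
  have hcount : ∀ F, (𝓕 F).Countable := fun F =>
    GF_countable Γ ((F.countable_toSet).image _)
  choose c hcc hcd using fun F =>
    exists_countable_fiber_dense d univ (fun x _ => hd x) (𝓕 F) (hcount F) (hcont F)
  have H : ChainHyp d 𝓕 c :=
    { cont := hcont
      mono := hmono
      dens := fun x F => hcd F x (mem_univ x)
      sep := by
        intro S _ x hx y hy hxy
        obtain ⟨G, hG, n, hn⟩ := hs _ x y hx hy hxy
        obtain ⟨F, hF, hGF⟩ := finset_image_of_subset d hG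
        exact ⟨F, hF, Γ G n, ⟨G, hGF, n, rfl⟩, hn⟩ }
  refine H.isCorson htight hd fun α => ih _ ?_
  have h1 : #(Sg c α) ≤ max ℵ₀ #(Iic α) :=
    mk_cl_le c (le_max_left _ _) (le_max_right _ _) fun F =>
      ((hcc F).le_aleph0).trans (le_max_left _ _)
  have h2 : #(Sg c α) < k := h1.trans_lt (max_lt hk (mk_Iic_lt hk hK α))
  exact mk_image_le.trans_lt h2

theorem isCorson_of_hasGamma_aux (k : Cardinal.{u}) : ∀ (X : Type u) [TopologicalSpace X]
    [CompactSpace X] [T2Space X], HasGamma X → ∀ D : Set X, Dense D → #D = k → IsCorson X := by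
  induction k using WellFoundedLT.induction with
  | ind k ih =>
    intro X _ _ _ h D hD hDk
    rcases le_or_gt k ℵ₀ with hk | hk
    · have hDc : D.Countable := by
        rw [← Cardinal.le_aleph0_iff_set_countable, hDk]
        exact hk
      exact isCorson_countable_dense h hD hDc
    · have he : #(k.ord.ToType) = #D := by rw [mk_ord_toType, hDk]
      obtain ⟨e⟩ := Cardinal.eq.1 he
      refine isCorson_of_hasGamma_step h hk (K := k.ord.ToType) mk_Iio_ord
        (fun i => (e i).1) ?_ ?_
      · intro x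
        have : range (fun i => (e i).1) = D := by
          ext y
          constructor
          · rintro ⟨i, rfl⟩
            exact (e i).2
          · intro hy
            exact ⟨e.symm ⟨y, hy⟩, by simp⟩
        rw [this]
        exact hD x
      · intro A hA
        have hc : CompactSpace (closure A) := isCompact_iff_compactSpace.1 isClosed_closure.isCompact
        have hlt : #((Subtype.val : closure A → X) ⁻¹' A) < k := (mk_preimage_closure A).trans_lt hA
        exact ih _ hlt (closure A) (h.subspace _) _ (dense_preimage_closure A) rfl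

/-- A compact Hausdorff space with `HasGamma` is Corson compact. -/
theorem HasGamma.isCorson {X : Type u} [TopologicalSpace X] [CompactSpace X] [T2Space X]
    (h : HasGamma X) : IsCorson X :=
  isCorson_of_hasGamma_aux _ X h univ dense_univ rfl

end Pool.Agent.Helper73.Split
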