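import Mathlib

/-!
# Lindelof Sigma spaces and Gul'ko compacta: definitions and basic closure properties
-/

open Set Filter Topology TopologicalSpace

universe u

namespace Pool.Agent.Helper73.Split

/-- The space `C_p(X)`: the set of continuous real-valued functions on `X`. -/
def Cp (X : Type u) [TopologicalSpace X] : Type u := {f : X → ℝ // Continuous f}

/-- The topology of pointwise convergence on `C_p(X)`: the subspace topology from the product
space `X → ℝ`. -/
instance instTopCp (X : Type u) [TopologicalSpace X] : TopologicalSpace (Cp X) :=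
  TopologicalSpace.induced (fun f : Cp X => f.1) inferInstance

/-- A space `Z` is Lindelof Sigma if it is a continuous image of a (Tychonoff) space `E` that
admits a perfect map `π` onto a separable metrizable space `M`. -/
def IsLindelofSigma (Z : Type u) [TopologicalSpace Z] : Prop :=
  ∃ (E : Type u) (_ : TopologicalSpace E) (M : Type u) (_ : TopologicalSpace M)
    (π : E → M) (φ : E → Z),
    T35Space E ∧ SeparableSpace M ∧ MetrizableSpace M ∧ IsProperMap π ∧
      Function.Surjective π ∧ Continuous φ ∧ Function.Surjective φ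

/-- A Gul'ko compact space: a compact Hausdorff space `K` with `C_p(K)` Lindelof Sigma. -/
def IsGulko (K : Type u) [TopologicalSpace K] : Prop :=
  CompactSpace K ∧ T2Space K ∧ IsLindelofSigma (Cp K)

theorem continuous_toCp {E K : Type u} [TopologicalSpace E] [TopologicalSpace K] {f : E → Cp K}
    (h : ∀ x, Continuous fun e => (f e).1 x) : Continuous f := by
  rw [continuous_induced_rng]
  exact continuous_pi h

theorem continuous_cp_eval {K : Type u} [TopologicalSpace K] (x : K) :
    Continuous fun f : Cp K => f.1 x :=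
  (continuous_apply x).comp continuous_induced_dom

theorem secondCountable_of_sm {M : Type u} [TopologicalSpace M] [SeparableSpace M]
    [MetrizableSpace M] : SecondCountableTopology M := by
  let := metrizableSpaceMetric M
  exact UniformSpace.secondCountable_of_separable M

/-- Surjectivity of the perfect map is not needed. -/
theorem isLindelofSigma_mk {Z : Type u} [TopologicalSpace Z] (E : Type u) [TopologicalSpace E]
    (M : Type u) [TopologicalSpace M] (π : E → M) (φ : E → Z) [T35Space E]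
    [SecondCountableTopology M] [MetrizableSpace M] (hπ : IsProperMap π) (hφ : Continuous φ)
    (hφs : Function.Surjective φ) : IsLindelofSigma Z := by
  refine ⟨E, inferInstance, Set.range π, inferInstance, Set.rangeFactorization π, φ,
    inferInstance, inferInstance, inferInstance, ?_, Set.rangeFactorization_surjective, hφ, hφs⟩
  refine isProperMap_of_comp_of_inj (g := Subtype.val) ?_ continuous_subtype_val hπ
    Subtype.val_injective
  exact hπ.continuous.subtype_mk _

/-! ### The Stone-Weierstrass construction -/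

section SW

variable {K : Type u} [TopologicalSpace K] {ι : Type} (L : ι → Type u)
  [∀ i, TopologicalSpace (L i)] (lam : ∀ i, L i → Cp K)

/-- Terms: integer polynomials in variables `(i, j)` (functions from the `i`-th family) and `j`
(real constants). -/
abbrev Tm (ι : Type) : Type := MvPolynomial ((ι × ℕ) ⊕ ℕ) ℤ

/-- Values of the variables at the point `x`. -/
def vals (l : ∀ w : ι × ℕ, L w.1) (r : ℕ → ℝ) (x : K) : (ι × ℕ) ⊕ ℕ → ℝ
  | Sum.inl w => (lam w.1 (l w)).1 x
  | Sum.inr j => r j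

/-- Value of a term at a point. -/
noncomputable def ev (t : Tm ι) (l : ∀ w : ι × ℕ, L w.1) (r : ℕ → ℝ) (x : K) : ℝ :=
  MvPolynomial.aeval (vals L lam l r x) t

omit [∀ i, TopologicalSpace (L i)] in
theorem continuous_ev_x (t : Tm ι) (l : ∀ w : ι × ℕ, L w.1) (r : ℕ → ℝ) :
    Continuous (ev L lam t l r) := by
  have hv : ∀ w, Continuous fun x => vals L lam l r x w := by
    intro w
    rcases w with w | j
    · exact (lam w.1 (l w)).2
    · exact continuous_const
  unfold ev
  induction t using MvPolynomial.induction_on with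
  | C a => simp only [MvPolynomial.aeval_C]; exact continuous_const
  | add p q hp hq => simp only [map_add]; exact hp.add hq
  | mul_X p i hp => simp only [map_mul, MvPolynomial.aeval_X]; exact hp.mul (hv i)

theorem continuous_ev_l (hlam : ∀ i, Continuous (lam i)) (t : Tm ι) (x : K) :
    Continuous fun p : (∀ w : ι × ℕ, L w.1) × (ℕ → ℝ) => ev L lam t p.1 p.2 x := by
  have hv : ∀ w, Continuous fun p : (∀ w : ι × ℕ, L w.1) × (ℕ → ℝ) => vals L lam p.1 p.2 x w := by
    intro w
    rcases w with w | j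
    · exact (continuous_cp_eval x).comp ((hlam w.1).comp ((continuous_apply w).comp continuous_fst))
    · exact (continuous_apply j).comp continuous_snd
  unfold ev
  induction t using MvPolynomial.induction_on with
  | C a => simp only [MvPolynomial.aeval_C]; exact continuous_const
  | add p q hp hq => simp only [map_add]; exact hp.add hq
  | mul_X p i hp => simp only [map_mul, MvPolynomial.aeval_X]; exact hp.mul (hv i)

/-- Renaming of variables used to merge countably many choices of parameters. -/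
def ren (ι : Type) (k : ℕ) : (ι × ℕ) ⊕ ℕ → (ι × ℕ) ⊕ ℕ
  | Sum.inl (i, j) => Sum.inl (i, Nat.pair k j)
  | Sum.inr j => Sum.inr (Nat.pair k j)

/-- Merging countably many parameter sequences. -/
def mergeL (l : ℕ → ∀ w : ι × ℕ, L w.1) : ∀ w : ι × ℕ, L w.1 :=
  fun w => l (Nat.unpair w.2).1 (w.1, (Nat.unpair w.2).2)

/-- Merging countably many sequences of constants. -/
def mergeR (r : ℕ → ℕ → ℝ) : ℕ → ℝ := fun j => r (Nat.unpair j).1 (Nat.unpair j).2

omit [∀ i, TopologicalSpace (L i)] in
theorem ev_ren (t : Tm ι) (l : ℕ → ∀ w : ι × ℕ, L w.1) (r : ℕ → ℕ → ℝ) (k : ℕ) (x : K) :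
    ev L lam (MvPolynomial.rename (ren ι k) t) (mergeL L l) (mergeR r) x =
      ev L lam t (l k) (r k) x := by
  unfold ev
  rw [MvPolynomial.aeval_rename]
  congr 2
  funext w
  rcases w with ⟨i, j⟩ | j
  · exact congrArg (fun p : ℕ × ℕ => (lam i (l p.1 (i, p.2))).1 x) (Nat.unpair_pair k j)
  · simp [ren, vals, mergeR]

theorem continuous_ev_code (hlam : ∀ i, Continuous (lam i)) (code : ℕ → Tm ι) (x : K) :
    Continuous fun p : ℕ × ((∀ w : ι × ℕ, L w.1) × (ℕ → ℝ)) =>
        ev L lam (code p.1) p.2.1 p.2.2 x := by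
  rw [continuous_prod_of_discrete_left]
  intro n
  exact continuous_ev_l L lam hlam (code n) x

/-- The subalgebra of functions given by terms. -/
noncomputable def termAlg [∀ i, Nonempty (L i)] : Subalgebra ℝ C(K, ℝ) where
  carrier := {a | ∃ (t : Tm ι) (l : ∀ w : ι × ℕ, L w.1) (r : ℕ → ℝ), ∀ x, a x = ev L lam t l r x}
  mul_mem' := by
    rintro a b ⟨t, l, r, h⟩ ⟨t', l', r', h'⟩
    refine ⟨MvPolynomial.rename (ren ι 0) t * MvPolynomial.rename (ren ι 1) t',
      mergeL L (fun k => if k = 0 then l else l'), mergeR (fun k => if k = 0 then r else r'),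
      fun x => ?_⟩
    have h1 := ev_ren L lam t (fun k => if k = 0 then l else l') (fun k => if k = 0 then r else r') 0 x
    have h2 := ev_ren L lam t' (fun k => if k = 0 then l else l') (fun k => if k = 0 then r else r') 1 x
    simp only [if_true, one_ne_zero, if_false] at h1 h2
    rw [ContinuousMap.mul_apply, h x, h' x, ← h1, ← h2]
    unfold ev
    rw [map_mul]
  add_mem' := by
    rintro a b ⟨t, l, r, h⟩ ⟨t', l', r', h'⟩
    refine ⟨MvPolynomial.rename (ren ι 0) t + MvPolynomial.rename (ren ι 1) t',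
      mergeL L (fun k => if k = 0 then l else l'), mergeR (fun k => if k = 0 then r else r'),
      fun x => ?_⟩
    have h1 := ev_ren L lam t (fun k => if k = 0 then l else l') (fun k => if k = 0 then r else r') 0 x
    have h2 := ev_ren L lam t' (fun k => if k = 0 then l else l') (fun k => if k = 0 then r else r') 1 x
    simp only [if_true, one_ne_zero, if_false] at h1 h2
    rw [ContinuousMap.add_apply, h x, h' x, ← h1, ← h2]
    unfold ev
    rw [map_add]
  algebraMap_mem' := by
    intro c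
    refine ⟨MvPolynomial.X (Sum.inr 0), fun w => Classical.arbitrary _, fun _ => c, fun x => ?_⟩
    unfold ev
    rw [MvPolynomial.aeval_X]
    rfl

omit [∀ i, TopologicalSpace (L i)] in
theorem exists_approx [CompactSpace K] [∀ i, Nonempty (L i)]
    (hsep : ∀ x y : K, x ≠ y → ∃ i l, (lam i l).1 x ≠ (lam i l).1 y) (h : C(K, ℝ)) (ε : ℝ)
    (hε : 0 < ε) : ∃ (t : Tm ι) (l : ∀ w : ι × ℕ, L w.1) (r : ℕ → ℝ),
      ∀ x, |h x - ev L lam t l r x| ≤ ε := by
  have hsp : (termAlg L lam).SeparatesPoints := by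
    intro x y hxy
    obtain ⟨i, l, hl⟩ := hsep x y hxy
    refine ⟨(lam i l).1, ⟨⟨(lam i l).1, (lam i l).2⟩, ?_, rfl⟩, hl⟩
    classical
    refine ⟨MvPolynomial.X (Sum.inl (i, 0)),
      fun w => if hw : i = w.1 then hw ▸ l else Classical.arbitrary _, fun _ => 0, fun x => ?_⟩
    unfold ev
    rw [MvPolynomial.aeval_X]
    simp [vals]
  have hd := ContinuousMap.subalgebra_topologicalClosure_eq_top_of_separatesPoints _ hsp
  have hmem : h ∈ (termAlg L lam).topologicalClosure := by rw [hd]; exact Algebra.mem_top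
  have hmem' : h ∈ closure ((termAlg L lam : Subalgebra ℝ C(K, ℝ)) : Set C(K, ℝ)) := hmem
  obtain ⟨a, ⟨t, l, r, ha⟩, hdist⟩ := Metric.mem_closure_iff.1 hmem' ε hε
  refine ⟨t, l, r, fun x => ?_⟩
  rw [← ha x, ← Real.dist_eq]
  exact (ContinuousMap.dist_apply_le_dist x).trans hdist.le

/-- The parameter space. -/
abbrev BigSp (K : Type u) {ι : Type} (E : ι → Type u) : Type u :=
  ((∀ w : ι × ℕ, E w.1) × (ℕ → ℝ) × (ℕ → ℕ)) × (K → Set.Icc (-1 : ℝ) 1)

/-- The `k`-th approximation given by a parameter. -/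
noncomputable def PP {E : ι → Type u} (φ : ∀ i, E i → L i) (code : ℕ → Tm ι) (k : ℕ)
    (b : BigSp K E) (x : K) : ℝ :=
  ev L lam (code (b.1.2.2 k)) (fun w => φ w.1 (b.1.1 w)) b.1.2.1 x

/-- The parameters of `PP`. -/
def qq {E : ι → Type u} (φ : ∀ i, E i → L i) (k : ℕ) (b : BigSp K E) :
    ℕ × ((∀ w : ι × ℕ, L w.1) × (ℕ → ℝ)) :=
  (b.1.2.2 k, ((fun w : ι × ℕ => φ w.1 (b.1.1 w)), b.1.2.1))

omit [TopologicalSpace K] in
theorem continuous_qq {E : ι → Type u} [∀ i, TopologicalSpace (E i)] (φ : ∀ i, E i → L i)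
    (hφ : ∀ i, Continuous (φ i)) (k : ℕ) : Continuous (qq (K := K) L φ k) := by
  refine Continuous.prodMk ?_ (Continuous.prodMk ?_ ?_)
  · exact (continuous_apply k).comp (continuous_snd.comp (continuous_snd.comp continuous_fst))
  · exact continuous_pi fun w => (hφ w.1).comp
      ((continuous_apply w).comp (continuous_fst.comp continuous_fst))
  · exact continuous_fst.comp (continuous_snd.comp continuous_fst)

theorem continuous_PP {E : ι → Type u} [∀ i, TopologicalSpace (E i)] (φ : ∀ i, E i → L i)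
    (hφ : ∀ i, Continuous (φ i)) (hlam : ∀ i, Continuous (lam i)) (code : ℕ → Tm ι) (k : ℕ)
    (x : K) : Continuous fun b : BigSp K E => PP L lam φ code k b x := by
  have h3 := (continuous_ev_code L lam hlam code x).comp (continuous_qq (K := K) L φ hφ k)
  have h4 : (fun b : BigSp K E => PP L lam φ code k b x) =
      (fun p : ℕ × ((∀ w : ι × ℕ, L w.1) × (ℕ → ℝ)) => ev L lam (code p.1) p.2.1 p.2.2 x) ∘
        (qq (K := K) L φ k) := by
    funext b
    unfold PP qq
    rfl
  rw [h4]
  exact h3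

end SW

/-- If `K` is compact and countably many Lindelof Sigma spaces map continuously to `C_p(K)` so
that the images together separate the points of `K`, then `C_p(K)` is Lindelof Sigma. -/
theorem isLindelofSigma_cp {K : Type u} [TopologicalSpace K] [CompactSpace K] {ι : Type}
    [Countable ι] (L : ι → Type u) [∀ i, TopologicalSpace (L i)] (lam : ∀ i, L i → Cp K)
    (hL : ∀ i, IsLindelofSigma (L i)) (hne : ∀ i, Nonempty (L i)) (hlam : ∀ i, Continuous (lam i))
    (hsep : ∀ x y : K, x ≠ y → ∃ i l, (lam i l).1 x ≠ (lam i l).1 y) :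
    IsLindelofSigma (Cp K) := by
  choose E tE M tM π φ hE hM hM' hπ hπs hφ hφs using hL
  have hM2 : ∀ i, SecondCountableTopology (M i) := fun i => secondCountable_of_sm
  -- codes for terms
  have : Countable (Tm ι) := by
    have := MvPolynomial.cardinalMk_le_max (σ := (ι × ℕ) ⊕ ℕ) (R := ℤ)
    rw [← Cardinal.mk_le_aleph0_iff]
    refine this.trans ?_
    simp
  obtain ⟨code, hcode⟩ := exists_surjective_nat (Tm ι)
  -- the big space
  let Big : Type u := BigSp K E
  let MM : Type u := (∀ w : ι × ℕ, M w.1) × (ℕ → ℝ) × (ℕ → ℕ)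
  let P : ℕ → Big → K → ℝ := PP L lam φ code
  have hPx : ∀ k b, Continuous (P k b) := fun k b => continuous_ev_x L lam _ _ _
  have hPb : ∀ k x, Continuous fun b => P k b x := continuous_PP L lam φ hφ hlam code
  let C : Set Big := {b | ∀ (k : ℕ) (x : K), |P 0 b x + (b.2 x : ℝ) - P k b x| ≤ 1 / ((k : ℝ) + 1)}
  have hC : IsClosed C := by
    have : C = ⋂ (k : ℕ) (x : K), {b | |P 0 b x + (b.2 x : ℝ) - P k b x| ≤ 1 / ((k : ℝ) + 1)} := by
      ext b; simp [C]
    rw [this]
    refine isClosed_iInter fun k => isClosed_iInter fun x => isClosed_le ?_ continuous_const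
    refine continuous_abs.comp (((hPb 0 x).add ?_).sub (hPb k x))
    exact continuous_subtype_val.comp ((continuous_apply x).comp continuous_snd)
  have hcont : ∀ b ∈ C, Continuous fun x => P 0 b x + (b.2 x : ℝ) := by
    intro b hb
    refine TendstoUniformly.continuous (F := fun k => P k b) (p := atTop) ?_
      (Frequently.of_forall fun k => hPx k b)
    rw [Metric.tendstoUniformly_iff]
    intro ε hε
    obtain ⟨N, hN⟩ := exists_nat_one_div_lt hε
    filter_upwards [eventually_ge_atTop N] with k hk x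
    rw [Real.dist_eq]
    refine lt_of_le_of_lt (hb k x) (lt_of_le_of_lt ?_ hN)
    have : (N : ℝ) ≤ k := by exact_mod_cast hk
    exact one_div_le_one_div_of_le (by positivity) (by linarith)
  let G : C → Cp K := fun b => ⟨fun x => P 0 b.1 x + (b.1.2 x : ℝ), hcont b.1 b.2⟩
  have hG : Continuous G := by
    refine continuous_toCp fun x => ?_
    refine ((hPb 0 x).comp continuous_subtype_val).add ?_
    exact continuous_subtype_val.comp ((continuous_apply x).comp
      (continuous_snd.comp continuous_subtype_val))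
  have hGs : Function.Surjective G := by
    intro h
    have happ : ∀ k : ℕ, ∃ (t : Tm ι) (l : ∀ w : ι × ℕ, L w.1) (r : ℕ → ℝ),
        ∀ x, |h.1 x - ev L lam t l r x| ≤ 1 / ((k : ℝ) + 1) := fun k =>
      exists_approx L lam hsep ⟨h.1, h.2⟩ _ (by positivity)
    choose t l r hlr using happ
    have hcode' : ∀ k, ∃ n, code n = MvPolynomial.rename (ren ι k) (t k) := fun k => hcode _
    choose σ hσ using hcode'
    choose e he using fun w : ι × ℕ => hφs w.1 (mergeL L l w)
    have hval : ∀ k x, ev L lam (code (σ k)) (fun w => φ w.1 (e w)) (mergeR r) x =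
        ev L lam (t k) (l k) (r k) x := by
      intro k x
      have : (fun w => φ w.1 (e w)) = mergeL L l := funext he
      rw [this, hσ, ev_ren]
    have hu : ∀ x, h.1 x - ev L lam (t 0) (l 0) (r 0) x ∈ Set.Icc (-1 : ℝ) 1 := by
      intro x
      have := hlr 0 x
      rw [abs_le] at this
      simpa using this
    let b : Big := ((e, mergeR r, σ), fun x => ⟨h.1 x - ev L lam (t 0) (l 0) (r 0) x, hu x⟩)
    have hP : ∀ k x, P k b x = ev L lam (t k) (l k) (r k) x := fun k x => hval k x
    have hb : b ∈ C := by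
      intro k x
      have : P 0 b x + ((b.2 x : ℝ)) = h.1 x := by
        rw [hP]
        change _ + (h.1 x - ev L lam (t 0) (l 0) (r 0) x) = _
        ring
      rw [this, hP]
      exact hlr k x
    refine ⟨⟨b, hb⟩, ?_⟩
    apply Subtype.ext
    funext x
    change P 0 b x + (h.1 x - ev L lam (t 0) (l 0) (r 0) x) = h.1 x
    rw [hP]
    ring
  have hproper : IsProperMap (fun b : Big => ((fun w => π w.1 (b.1.1 w), b.1.2) : MM)) := by
    have h1 : IsProperMap (Prod.fst : Big → ((∀ w : ι × ℕ, E w.1) × (ℕ → ℝ) × (ℕ → ℕ))) :=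
      isProperMap_fst_of_compactSpace
    have h2 : IsProperMap (fun (x : ∀ w : ι × ℕ, E w.1) w => π w.1 (x w)) :=
      IsProperMap.pi_map fun w => hπ w.1
    exact (h2.prodMap isProperMap_id).comp h1
  exact isLindelofSigma_mk C MM (fun b : C => ((fun w => π w.1 (b.1.1.1 w), b.1.1.2) : MM)) G
    (hproper.restrict hC) hG hGs

/-- Gul'ko compacta: countable jointly injective families. -/
theorem isGulko_of_joint {X : Type u} [TopologicalSpace X] [CompactSpace X] [T2Space X]
    {ι : Type} [Countable ι] (Y : ι → Type u) [∀ i, TopologicalSpace (Y i)]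
    (hY : ∀ i, IsGulko (Y i)) (f : ∀ i, X → Y i) (hf : ∀ i, Continuous (f i))
    (hinj : ∀ x y : X, (∀ i, f i x = f i y) → x = y) : IsGulko X := by
  refine ⟨inferInstance, inferInstance, ?_⟩
  refine isLindelofSigma_cp (fun i => Cp (Y i)) (fun i g => ⟨g.1 ∘ f i, g.2.comp (hf i)⟩)
    (fun i => (hY i).2.2) (fun i => ⟨⟨fun _ => 0, continuous_const⟩⟩)
    (fun i => continuous_toCp fun x => continuous_cp_eval (f i x)) ?_
  intro x y hxy
  obtain ⟨i, hi⟩ : ∃ i, f i x ≠ f i y := by
    by_contra h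
    push Not at h
    exact hxy (hinj x y h)
  have := (hY i).1
  have := (hY i).2.1
  obtain ⟨g, hg, hg'⟩ := (separatesPoints_continuous_of_t35Space (X := Y i)) hi
  exact ⟨i, ⟨g, hg⟩, hg'⟩

/-- Gul'ko compacta: continuous images. -/
theorem isGulko_of_image {X Z : Type u} [TopologicalSpace X] [TopologicalSpace Z] [T2Space Z]
    (hX : IsGulko X) (g : X → Z) (hg : Continuous g) (hgs : Function.Surjective g) :
    IsGulko Z := by
  obtain ⟨hc, ht, E, tE, M, tM, π, φ, hE, hM, hM', hπ, hπs, hφ, hφs⟩ := hX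
  have hcZ : CompactSpace Z := ⟨by
    rw [← hgs.range_eq]
    exact isCompact_range hg⟩
  refine ⟨hcZ, inferInstance, ?_⟩
  have hq : IsQuotientMap g := hg.isClosedMap.isQuotientMap hg hgs
  have hsc : SecondCountableTopology M := secondCountable_of_sm
  let C : Set E := {e | ∀ x y, g x = g y → (φ e).1 x = (φ e).1 y}
  have hC : IsClosed C := by
    have : C = ⋂ (x : X) (y : X) (_ : g x = g y), {e | (φ e).1 x = (φ e).1 y} := by
      ext e; simp [C]
    rw [this]
    refine isClosed_iInter fun x => isClosed_iInter fun y => isClosed_iInter fun _ => ?_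
    exact isClosed_eq ((continuous_cp_eval x).comp hφ) ((continuous_cp_eval y).comp hφ)
  choose s hs using hgs
  let ψ : C → Cp Z := fun e => ⟨fun z => (φ e.1).1 (s z), by
    rw [hq.continuous_iff]
    have : (fun z => (φ e.1).1 (s z)) ∘ g = (φ e.1).1 := by
      funext x
      exact e.2 _ _ (hs (g x))
    rw [this]
    exact (φ e.1).2⟩
  refine isLindelofSigma_mk C M (fun e : C => π e.1) ψ (hπ.restrict hC) ?_ ?_
  · exact continuous_toCp fun z => (continuous_cp_eval (s z)).comp (hφ.comp continuous_subtype_val)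
  · intro h
    obtain ⟨e, he⟩ := hφs ⟨h.1 ∘ g, h.2.comp hg⟩
    refine ⟨⟨e, ?_⟩, ?_⟩
    · intro x y hxy
      rw [he]
      simp [hxy]
    · apply Subtype.ext
      funext z
      change (φ e).1 (s z) = h.1 z
      rw [he]
      change h.1 (g (s z)) = h.1 z
      rw [hs]

/-- A countable-valued assignment of continuous functions to finite sets which separates points
of closures. -/
def HasGamma (X : Type u) [TopologicalSpace X] : Prop :=
  ∃ Γ : Finset X → ℕ → X → ℝ, (∀ F n, Continuous (Γ F n)) ∧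
    ∀ (A : Set X) (x y : X), x ∈ closure A → y ∈ closure A → x ≠ y →
      ∃ F : Finset X, (F : Set X) ⊆ A ∧ ∃ n, Γ F n x ≠ Γ F n y

theorem IsGulko.hasGamma {X : Type u} [TopologicalSpace X] (hX : IsGulko X) : HasGamma X := by
  classical
  obtain ⟨hc, ht, E, tE, M, tM, π, φ, hE, hM, hM', hπ, hπs, hφ, hφs⟩ := hX
  have hsc : SecondCountableTopology M := secondCountable_of_sm
  -- countable basis
  obtain ⟨B, hBc, -, hB⟩ := exists_countable_basis M
  obtain ⟨e0, -⟩ := hφs ⟨fun _ => 0, continuous_const⟩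
  have hBne : Nonempty B := by
    obtain ⟨O, hO, -, -⟩ := hB.exists_subset_of_mem_open (mem_univ (π e0)) isOpen_univ
    exact ⟨⟨O, hO⟩⟩
  have hBc' : Countable B := hBc.to_subtype
  -- the chosen elements
  let good : ∀ F : Finset X, B × (F → ℚ) × ℕ → E → Prop := fun F p u =>
    π u ∈ p.1.1 ∧ ∀ a : F, |(φ u).1 a.1 - (p.2.1 a : ℝ)| < 1 / ((p.2.2 : ℝ) + 1)
  let ch : ∀ F : Finset X, B × (F → ℚ) × ℕ → E := fun F p =>
    if h : ∃ u, good F p u then h.choose else e0
  have hch : ∀ F p, (∃ u, good F p u) → good F p (ch F p) := by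
    intro F p h
    simp only [ch, dif_pos h]
    exact h.choose_spec
  have hcode : ∀ F : Finset X, ∃ c : ℕ → B × (F → ℚ) × ℕ, Function.Surjective c :=
    fun F => exists_surjective_nat _
  choose code hcode using hcode
  refine ⟨fun F n => (φ (ch F (code F n))).1, fun F n => (φ _).2, ?_⟩
  intro A x y hx hy hxy
  by_contra hcon
  push Not at hcon
  obtain ⟨g0, hg0, hg0xy⟩ := (separatesPoints_continuous_of_t35Space (X := X)) hxy
  obtain ⟨u0, hu0⟩ := hφs ⟨g0, hg0⟩
  have hu0' : ∀ a, (φ u0).1 a = g0 a := fun a => by rw [hu0]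
  set t := π u0 with ht0
  have hW : ∀ O ∈ B, t ∈ O → ∀ F : Finset X, (F : Set X) ⊆ A → ∀ n : ℕ,
      ∃ u, π u ∈ O ∧ (∀ a ∈ F, |(φ u).1 a - g0 a| < 1 / ((n : ℝ) + 1)) ∧
        (φ u).1 x = (φ u).1 y := by
    intro O hO htO F hF n
    have hpos : (0 : ℝ) < 1 / (((2 * n + 1 : ℕ) : ℝ) + 1) := by positivity
    choose v hv using fun a : F => exists_rat_near (g0 a.1) hpos
    let p : B × (F → ℚ) × ℕ := (⟨O, hO⟩, v, 2 * n + 1)
    have hex : ∃ u, good F p u := by
      refine ⟨u0, htO, fun a => ?_⟩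
      rw [hu0']
      exact hv a
    have hg := hch F p hex
    refine ⟨ch F p, hg.1, fun a ha => ?_, ?_⟩
    · have h1 := hg.2 ⟨a, ha⟩
      have h2 := hv ⟨a, ha⟩
      have h3 : |(φ (ch F p)).1 a - g0 a| ≤ |(φ (ch F p)).1 a - (v ⟨a, ha⟩ : ℝ)| +
          |g0 a - (v ⟨a, ha⟩ : ℝ)| := by
        have := abs_sub_le ((φ (ch F p)).1 a) (v ⟨a, ha⟩ : ℝ) (g0 a)
        rwa [abs_sub_comm (v ⟨a, ha⟩ : ℝ) (g0 a)] at this
      refine lt_of_le_of_lt h3 ((add_lt_add h1 h2).trans_le ?_)
      have h4 : (((2 * n + 1 : ℕ) : ℝ) + 1) = 2 * ((n : ℝ) + 1) := by push_cast; ring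
      rw [h4]
      have : (0 : ℝ) < (n : ℝ) + 1 := by positivity
      field_simp
      norm_num
    · obtain ⟨k, hk⟩ := hcode F p
      have := hcon F hF k
      rwa [hk] at this
  -- the filter
  let J := {O : Set M // O ∈ B ∧ t ∈ O} × {F : Finset X // (F : Set X) ⊆ A} × ℕ
  let W : J → Set E := fun j => {u | π u ∈ j.1.1 ∧
    (∀ a ∈ j.2.1.1, |(φ u).1 a - g0 a| < 1 / ((j.2.2 : ℝ) + 1)) ∧ (φ u).1 x = (φ u).1 y}
  have hJne : Nonempty J := by
    obtain ⟨O, hO, htO, -⟩ := hB.exists_subset_of_mem_open (mem_univ t) isOpen_univ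
    exact ⟨⟨⟨O, hO, htO⟩, ⟨∅, by simp⟩, 0⟩⟩
  have hdir : Directed (· ≥ ·) W := by
    rintro ⟨⟨O, hO, htO⟩, ⟨F, hF⟩, n⟩ ⟨⟨O', hO', htO'⟩, ⟨F', hF'⟩, n'⟩
    obtain ⟨O'', hO'', htO'', hsub⟩ := hB.exists_subset_of_mem_open
      (show t ∈ O ∩ O' from ⟨htO, htO'⟩) ((hB.isOpen hO).inter (hB.isOpen hO'))
    refine ⟨⟨⟨O'', hO'', htO''⟩, ⟨F ∪ F', by rw [Finset.coe_union]; exact union_subset hF hF'⟩,
      max n n'⟩, ?_, ?_⟩
    · rintro u ⟨h1, h2, h3⟩
      refine ⟨(hsub h1).1, fun a ha => (h2 a (Finset.mem_union_left _ ha)).trans_le ?_, h3⟩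
      have : (n : ℝ) ≤ ((max n n' : ℕ) : ℝ) := by exact_mod_cast le_max_left _ _
      exact one_div_le_one_div_of_le (by positivity) (by linarith)
    · rintro u ⟨h1, h2, h3⟩
      refine ⟨(hsub h1).2, fun a ha => (h2 a (Finset.mem_union_right _ ha)).trans_le ?_, h3⟩
      have : (n' : ℝ) ≤ ((max n n' : ℕ) : ℝ) := by exact_mod_cast le_max_right _ _
      exact one_div_le_one_div_of_le (by positivity) (by linarith)
  have hne : ∀ j, (W j).Nonempty := by
    rintro ⟨⟨O, hO, htO⟩, ⟨F, hF⟩, n⟩
    obtain ⟨u, hu⟩ := hW O hO htO F hF n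
    exact ⟨u, hu⟩
  have hNB : NeBot (⨅ j, 𝓟 (W j)) := by
    refine iInf_neBot_of_directed' ?_ (fun j => principal_neBot_iff.2 (hne j))
    intro i j
    obtain ⟨k, h1, h2⟩ := hdir i j
    exact ⟨k, principal_mono.2 h1, principal_mono.2 h2⟩
  obtain ⟨𝒰, h𝒰⟩ := exists_ultrafilter_iff.2 hNB
  have hmem : ∀ j, W j ∈ 𝒰 := fun j => h𝒰 (mem_iInf_of_mem j (mem_principal_self _))
  have hlim : Tendsto π 𝒰 (𝓝 t) := by
    rw [tendsto_def]
    intro s hs
    obtain ⟨O, hO, htO, hsub⟩ := hB.mem_nhds_iff.1 hs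
    refine mem_of_superset (hmem ⟨⟨O, hO, htO⟩, ⟨∅, by simp⟩, 0⟩) ?_
    rintro u ⟨h1, -, -⟩
    exact hsub h1
  obtain ⟨u, -, hu⟩ := hπ.ultrafilter_le_nhds_of_tendsto hlim
  have hcont : ∀ a, Tendsto (fun e => (φ e).1 a) 𝒰 (𝓝 ((φ u).1 a)) := fun a =>
    (((continuous_cp_eval a).comp hφ).tendsto u).mono_left hu
  obtain ⟨O, hO, htO, -⟩ := hB.exists_subset_of_mem_open (mem_univ t) isOpen_univ
  have hA : ∀ a ∈ A, (φ u).1 a = g0 a := by
    intro a ha
    refine tendsto_nhds_unique (hcont a) ?_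
    rw [Metric.tendsto_nhds]
    intro ε hε
    obtain ⟨N, hN⟩ := exists_nat_one_div_lt hε
    refine mem_of_superset (hmem ⟨⟨O, hO, htO⟩, ⟨{a}, by simpa using ha⟩, N⟩) ?_
    rintro e ⟨-, h2, -⟩
    exact (h2 a (Finset.mem_singleton_self a)).trans hN
  have heq : (φ u).1 x = (φ u).1 y := by
    refine tendsto_nhds_unique (hcont x) ((hcont y).congr' ?_)
    refine mem_of_superset (hmem ⟨⟨O, hO, htO⟩, ⟨∅, by simp⟩, 0⟩) ?_
    rintro e ⟨-, -, h3⟩
    exact h3.symm
  have hcl : ∀ z ∈ closure A, (φ u).1 z = g0 z := by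
    intro z hz
    have hcl2 : IsClosed {z | (φ u).1 z = g0 z} := isClosed_eq (φ u).2 hg0
    exact (closure_minimal hA hcl2) hz
  exact hg0xy (by rw [← hcl x hx, ← hcl y hy, heq])

end Pool.Agent.Helper73.Split
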