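import Pool.Agent.Helper73.Split.CorsonSplit

/-!
# Compacta splittable over Gul'ko compacta are Gul'ko compact
-/

open Set Filter Topology TopologicalSpace Cardinal

universe u

namespace Pool.Agent.Helper73.Split

/-- A separating family of continuous functions indexed by `K`, finite sets and naturals. -/
theorem Splittable.sepFamily {X : Type u} [TopologicalSpace X] [CompactSpace X] [T2Space X]
    (h : Splittable X) {K : Type u} (hK : ℵ₀ ≤ #K) (d : K → X)
    (hd : ∀ x, x ∈ closure (range d)) :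
    ∃ Γ : K → Finset X → ℕ → X → ℝ, (∀ i F n, Continuous (Γ i F n)) ∧
      ∀ x y, x ≠ y → ∃ i, ∃ F : Finset X, (F : Set X) ⊆ range d ∧ ∃ n, Γ i F n x ≠ Γ i F n y := by
  classical
  have h1 : Nonempty (X ↪ Set K) := by
    obtain ⟨e⟩ := h.exists_injection d hd
    have h2 : #(ℕ → K) ≤ #(Set K) := by
      rw [mk_set, ← power_self_eq hK]
      have h3 : #(ℕ → K) = #K ^ ℵ₀ := by simp
      rw [h3]
      exact power_le_power_left (ne_of_gt (lt_of_lt_of_le aleph0_pos hK)) hK
    obtain ⟨e'⟩ := (le_def _ _).1 h2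
    exact ⟨e.trans e'⟩
  obtain ⟨j⟩ := h1
  choose Γ hc hs using fun i : K => h.gamma fun x => if i ∈ j x then (1 : ℝ) else 0
  refine ⟨Γ, hc, ?_⟩
  intro x y hxy
  have h2 : j x ≠ j y := fun hcon => hxy (j.injective hcon)
  obtain ⟨i, hi⟩ : ∃ i, ¬ (i ∈ j x ↔ i ∈ j y) := by
    by_contra hcon
    push Not at hcon
    exact h2 (Set.ext hcon)
  have h3 : (if i ∈ j x then (1 : ℝ) else 0) ≠ (if i ∈ j y then (1 : ℝ) else 0) := by
    intro heq
    apply hi
    by_cases ha : i ∈ j x <;> by_cases hb : i ∈ j y <;> simp_all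
  obtain ⟨F, hF, n, hn⟩ := hs i (range d) x y (hd x) (hd y) h3
  exact ⟨i, F, hF, n, hn⟩

/-- Extending the functions of a closed subspace. -/
theorem exists_gamma_of_closed {X : Type u} [TopologicalSpace X] [CompactSpace X] [T2Space X]
    (Z : Set X) (hZ : IsClosed Z) (h : HasGamma Z) :
    ∃ Γ : Finset X → ℕ → X → ℝ, (∀ F n, Continuous (Γ F n)) ∧
      ∀ A : Set X, A ⊆ Z → ∀ x y, x ∈ closure A → y ∈ closure A → x ≠ y →
        ∃ F : Finset X, (F : Set X) ⊆ A ∧ ∃ n, Γ F n x ≠ Γ F n y := by
  classical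
  obtain ⟨Γ, hc, hs⟩ := h
  have hext : ∀ (G : Finset Z) (n : ℕ), ∃ g : X → ℝ, Continuous g ∧ ∀ z : Z, g z.1 = Γ G n z := by
    intro G n
    obtain ⟨g, hg⟩ := ContinuousMap.exists_restrict_eq hZ (⟨Γ G n, hc G n⟩ : C(Z, ℝ))
    refine ⟨g, g.continuous, fun z => ?_⟩
    exact DFunLike.congr_fun hg z
  choose g hgc hg using hext
  refine ⟨fun F n => g (F.subtype (· ∈ Z)) n, fun F n => hgc _ n, ?_⟩
  intro A hA x y hx hy hxy
  have hcl : closure A ⊆ Z := closure_minimal hA hZ
  have himg : (Subtype.val : Z → X) '' (Subtype.val ⁻¹' A) = A := by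
    rw [Subtype.image_preimage_coe, inter_eq_right]
    exact hA
  have hx' : (⟨x, hcl hx⟩ : Z) ∈ closure (Subtype.val ⁻¹' A : Set Z) := by
    rw [closure_subtype, himg]
    exact hx
  have hy' : (⟨y, hcl hy⟩ : Z) ∈ closure (Subtype.val ⁻¹' A : Set Z) := by
    rw [closure_subtype, himg]
    exact hy
  obtain ⟨G, hG, n, hn⟩ := hs _ _ _ hx' hy' (fun hcon => hxy (congrArg Subtype.val hcon))
  refine ⟨G.map (Function.Embedding.subtype _), ?_, n, ?_⟩
  · intro a ha
    simp only [Finset.coe_map, Function.Embedding.subtype_apply, mem_image, Finset.mem_coe] at ha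
    obtain ⟨b, hb, rfl⟩ := ha
    exact hG hb
  · have h1 : (G.map (Function.Embedding.subtype (· ∈ Z))).subtype (· ∈ Z) = G := by
      ext a
      simp
    have h2 : g ((G.map (Function.Embedding.subtype (· ∈ Z))).subtype (· ∈ Z)) n = g G n := by
      rw [h1]
    have h3 : g G n x ≠ g G n y := by
      rw [hg G n ⟨x, hcl hx⟩, hg G n ⟨y, hcl hy⟩]
      exact hn
    change g ((G.map (Function.Embedding.subtype (· ∈ Z))).subtype (· ∈ Z)) n x ≠
      g ((G.map (Function.Embedding.subtype (· ∈ Z))).subtype (· ∈ Z)) n y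
    rw [h2]
    exact h3

theorem IsGulko.isCorson {X : Type u} [TopologicalSpace X] (h : IsGulko X) : IsCorson X := by
  have := h.1
  have := h.2.1
  exact h.hasGamma.isCorson

section Steps

variable {X : Type u} [TopologicalSpace X] [CompactSpace X] [T2Space X] {k : Cardinal.{u}}
  {K : Type u} [LinearOrder K]

/-- The functions used for closing off. -/
def FF (d : K → X) (Γ : K → Finset X → ℕ → X → ℝ) (F : Finset K) : Set (X → ℝ) :=
  {g | ∃ i ∈ F, ∃ G : Finset K, G ⊆ F ∧ ∃ H : Finset X, (H : Set X) = d '' G ∧ ∃ n, g = Γ i H n}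

omit [CompactSpace X] [T2Space X] [LinearOrder K] in
theorem FF_cont (d : K → X) (Γ : K → Finset X → ℕ → X → ℝ) (hc : ∀ i F n, Continuous (Γ i F n)) :
    ∀ F, ∀ g ∈ FF d Γ F, Continuous g := by
  rintro F g ⟨i, -, G, -, H, -, n, rfl⟩
  exact hc i H n

omit [TopologicalSpace X] [CompactSpace X] [T2Space X] [LinearOrder K] in
theorem FF_mono (d : K → X) (Γ : K → Finset X → ℕ → X → ℝ) :
    ∀ F G, F ⊆ G → FF d Γ F ⊆ FF d Γ G := by
  rintro F G hFG g ⟨i, hi, G', hG', H, hH, n, rfl⟩
  exact ⟨i, hFG hi, G', hG'.trans hFG, H, hH, n, rfl⟩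

omit [TopologicalSpace X] [CompactSpace X] [T2Space X] [LinearOrder K] in
theorem FF_countable (d : K → X) (Γ : K → Finset X → ℕ → X → ℝ) (F : Finset K) :
    (FF d Γ F).Countable := by
  classical
  have : FF d Γ F ⊆ ⋃ i ∈ F, ⋃ G ∈ F.powerset, range fun n => Γ i (G.image d) n := by
    rintro g ⟨i, hi, G, hG, H, hH, n, rfl⟩
    have hH' : H = G.image d := by
      rw [← Finset.coe_inj, hH, Finset.coe_image]
    rw [hH']
    exact mem_iUnion₂.2 ⟨i, hi, mem_iUnion₂.2 ⟨G, Finset.mem_powerset.2 hG, n, rfl⟩⟩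
  exact (F.countable_toSet.biUnion fun i _ => F.powerset.countable_toSet.biUnion fun G _ =>
    countable_range _).mono this

omit [TopologicalSpace X] [CompactSpace X] [T2Space X] [LinearOrder K] in
theorem mem_FF_of_subset [DecidableEq K] (d : K → X) (Γ : K → Finset X → ℕ → X → ℝ) {S : Set K}
    {i : K} (hi : i ∈ S) {H : Finset X} (hH : (H : Set X) ⊆ d '' S) (n : ℕ) :
    ∃ F : Finset K, (F : Set K) ⊆ S ∧ Γ i H n ∈ FF d Γ F := by
  classical
  obtain ⟨G, hG, rfl⟩ := Finset.subset_set_image_iff.1 hH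
  refine ⟨insert i G, ?_, i, Finset.mem_insert_self i G, G, Finset.subset_insert i G, _, ?_, n, rfl⟩
  · rw [Finset.coe_insert]
    exact insert_subset hi hG
  · simp

/-- The case of countable cofinality. -/
theorem isGulko_cof (h : Splittable X) (hk : ℵ₀ < k) (hKk : ℵ₀ ≤ #K)
    (hK : ∀ i : K, #(Iio i) < k) (d : K → X) (hd : ∀ x, x ∈ closure (range d))
    (ih : ∀ A : Set X, #A < k → IsGulko (closure A)) (a : ℕ → K) (ha : ∀ i, ∃ n, i ≤ a n) :
    IsGulko X := by
  classical
  obtain ⟨Γ, hc, hs⟩ := h.sepFamily hKk d hd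
  choose c hcc hcd using fun F =>
    exists_countable_fiber_dense d Set.univ (fun x _ => hd x) (FF d Γ F) (FF_countable d Γ F)
      (FF_cont d Γ hc F)
  have hcl : ∀ n, ClosedUnder c (cl c (Iic (a n))) := fun n => closedUnder_cl c _
  let 𝓖 : ℕ → Set (X → ℝ) := fun n => {g | ∃ F : Finset K, (F : Set K) ⊆ cl c (Iic (a n)) ∧
    g ∈ FF d Γ F}
  let q : ∀ n, X → (𝓖 n → ℝ) := fun n x g => g.1 x
  have hq : ∀ n, Continuous (q n) := by
    intro n
    refine continuous_pi ?_
    rintro ⟨g, F, hF, hg⟩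
    exact FF_cont d Γ hc F g hg
  have hsmall : ∀ n, #(d '' cl c (Iic (a n))) < k := by
    intro n
    have h1 : #(cl c (Iic (a n))) ≤ max ℵ₀ #(Iic (a n)) :=
      mk_cl_le c (le_max_left _ _) (le_max_right _ _) fun F =>
        ((hcc F).le_aleph0).trans (le_max_left _ _)
    exact mk_image_le.trans_lt (h1.trans_lt (max_lt hk (mk_Iic_lt hk hK (a n))))
  have hQ : ∀ n, IsGulko (range (q n)) := by
    intro n
    have h1 : IsGulko (closure (d '' cl c (Iic (a n)))) := ih _ (hsmall n)
    refine isGulko_of_image h1 (fun z => ⟨q n z.1, z.1, rfl⟩)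
      (((hq n).comp continuous_subtype_val).subtype_mk _) ?_
    rintro ⟨_, x, rfl⟩
    obtain ⟨z, hz, hzx⟩ := exists_fiber_of_closed d (FF d Γ) (FF_cont d Γ hc) (FF_mono d Γ) c x
      (fun F => hcd F x (Set.mem_univ x)) (hcl n)
    refine ⟨⟨z, hz⟩, Subtype.ext ?_⟩
    funext g
    obtain ⟨g, F, hF, hg⟩ := g
    exact hzx F hF g hg
  refine isGulko_of_joint (ι := ℕ) (fun n => range (q n)) hQ (fun n x => ⟨q n x, x, rfl⟩)
    (fun n => (hq n).subtype_mk _) ?_
  intro x y hxy
  by_contra hne
  obtain ⟨i, H, hH, n, hn⟩ := hs x y hne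
  have hi : i ∈ (Set.univ : Set K) := Set.mem_univ i
  have hH' : (H : Set X) ⊆ d '' Set.univ := by rwa [image_univ]
  obtain ⟨F, -, hF⟩ := mem_FF_of_subset d Γ hi hH' n
  have : Nonempty K := ⟨i⟩
  obtain ⟨M, hM⟩ := F.exists_le
  obtain ⟨m, hm⟩ := ha M
  have hFS : (F : Set K) ⊆ cl c (Iic (a m)) := fun b hb => subset_cl c _ ((hM b hb).trans hm)
  have h1 : q m x = q m y := congrArg Subtype.val (hxy m)
  exact hn (congrFun h1 ⟨Γ i H n, F, hFS, hF⟩)

/-- Singular cardinals of uncountable cofinality. -/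
theorem isCorson_singular [WellFoundedLT K] (h : Splittable X) (hk : ℵ₀ < k)
    (hK : ∀ i : K, #(Iio i) < k) (d : K → X) (hd : ∀ x, x ∈ closure (range d))
    (ih : ∀ A : Set X, #A < k → IsGulko (closure A))
    (hb : ∀ s : Set K, s.Countable → ∃ i, ∀ j ∈ s, j < i)
    (U : Set K) (hU : #U < k) (hUc : ∀ i, ∃ u ∈ U, i ≤ u) : IsCorson X := by
  classical
  have htight := h.cTight
  have hIio : ∀ i : K, #(d '' Iio i) < k := fun i => mk_image_le.trans_lt (hK i)
  choose Γ hc hs using fun i : K => exists_gamma_of_closed (closure (d '' Iio i)) isClosed_closure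
    (ih _ (hIio i)).hasGamma
  choose c₀ hcc hcd using fun F =>
    exists_countable_fiber_dense d Set.univ (fun x _ => hd x) (FF d Γ F) (FF_countable d Γ F)
      (FF_cont d Γ hc F)
  let c : Finset K → Set K := fun F => c₀ F ∪ U
  have H : ChainHyp d (FF d Γ) c :=
    { cont := FF_cont d Γ hc
      mono := FF_mono d Γ
      dens := by
        intro x F
        obtain ⟨z, hz, hzx⟩ := hcd F x (Set.mem_univ x)
        exact ⟨z, closure_mono (image_mono subset_union_left) hz, hzx⟩
      sep := by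
        intro S hS x hx y hy hxy
        have hUS : U ⊆ S := by
          have := hS ∅ (by simp)
          exact subset_union_right.trans this
        obtain ⟨C₁, hC₁, hC₁c, hxC⟩ := htight.image d hx
        obtain ⟨C₂, hC₂, hC₂c, hyC⟩ := htight.image d hy
        obtain ⟨i, hi⟩ := hb (C₁ ∪ C₂) (hC₁c.union hC₂c)
        obtain ⟨u, hu, hiu⟩ := hUc i
        have hsub : d '' (C₁ ∪ C₂) ⊆ closure (d '' Iio u) :=
          (image_mono fun j hj => lt_of_lt_of_le (hi j hj) hiu).trans subset_closure
        obtain ⟨G, hG, n, hn⟩ := hs u (d '' (C₁ ∪ C₂)) hsub x y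
          (closure_mono (image_mono subset_union_left) hxC)
          (closure_mono (image_mono subset_union_right) hyC) hxy
        obtain ⟨F, hF, hgF⟩ := mem_FF_of_subset d Γ (hUS hu)
          (hG.trans (image_mono (union_subset hC₁ hC₂))) n
        exact ⟨F, hF, _, hgF, hn⟩ }
  refine H.isCorson htight hd fun α => (ih _ ?_).isCorson
  have h1 : #(Sg c α) ≤ max (max ℵ₀ #U) #(Iic α) := by
    refine mk_cl_le c ((le_max_left _ _).trans (le_max_left _ _)) (le_max_right _ _) fun F => ?_
    have h2 : #(c F) ≤ #(c₀ F) + #U := mk_union_le _ _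
    refine h2.trans (add_le_of_le ((le_max_left _ _).trans (le_max_left _ _)) ?_ ?_)
    · exact ((hcc F).le_aleph0).trans ((le_max_left _ _).trans (le_max_left _ _))
    · exact (le_max_right _ _).trans (le_max_left _ _)
  exact mk_image_le.trans_lt (h1.trans_lt (max_lt (max_lt hk hU) (mk_Iic_lt hk hK α)))

/-- Regular cardinals. -/
theorem isCorson_regular [WellFoundedLT K] (h : Splittable X) (hreg : k.IsRegular) (hk : ℵ₀ < k)
    (hK : ∀ i : K, #(Iio i) < k) (d : K → X) (hd : ∀ x, x ∈ closure (range d))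
    (ih : ∀ A : Set X, #A < k → IsGulko (closure A))
    (hb : ∀ s : Set K, s.Countable → ∃ i, ∀ j ∈ s, j < i) : IsCorson X := by
  classical
  have htight := h.cTight
  have hIio : ∀ i : K, #(d '' Iio i) < k := fun i => mk_image_le.trans_lt (hK i)
  choose Γ hc hs using fun i : K => exists_gamma_of_closed (closure (d '' Iio i)) isClosed_closure
    (ih _ (hIio i)).hasGamma
  -- the rank
  have hrank : ∀ x : X, ∃ α, x ∈ closure (d '' Iio α) ∧ ∀ β, x ∈ closure (d '' Iio β) → α ≤ β := by
    intro x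
    have hx := hd x
    rw [← image_univ] at hx
    obtain ⟨C, -, hCc, hxC⟩ := htight.image d hx
    obtain ⟨i, hi⟩ := hb C hCc
    obtain ⟨m, hm, hmin⟩ := WellFounded.has_min (wellFounded_lt (α := K))
      {α | x ∈ closure (d '' Iio α)} ⟨i, closure_mono (image_mono hi) hxC⟩
    exact ⟨m, hm, fun β hβ => not_lt.1 (hmin β hβ)⟩
  choose ρ hρ1 hρ2 using hrank
  choose Λ hΛc hΛs using fun (G : Finset K) (n : ℕ) =>
    h.gamma fun z => Γ (ρ z) (G.image d) n z
  choose Θ hΘc hΘs using fun (i : K) =>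
    h.gamma fun z => if z ∈ closure (d '' Iio i) then (1 : ℝ) else 0
  let 𝓕 : Finset K → Set (X → ℝ) := fun F =>
    {g | (∃ G : Finset K, G ⊆ F ∧ ∃ G' : Finset K, G' ⊆ F ∧ ∃ n m, g = Λ G n (G'.image d) m) ∨
      (∃ i ∈ F, ∃ G' : Finset K, G' ⊆ F ∧ ∃ m, g = Θ i (G'.image d) m)}
  have hcont : ∀ F, ∀ g ∈ 𝓕 F, Continuous g := by
    rintro F g (⟨G, -, G', -, n, m, rfl⟩ | ⟨i, -, G', -, m, rfl⟩)
    · exact hΛc _ _ _ _
    · exact hΘc _ _ _
  have hmono : ∀ F G, F ⊆ G → 𝓕 F ⊆ 𝓕 G := by
    rintro F₁ F₂ hF g (⟨G, hG, G', hG', n, m, rfl⟩ | ⟨i, hi, G', hG', m, rfl⟩)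
    · exact Or.inl ⟨G, hG.trans hF, G', hG'.trans hF, n, m, rfl⟩
    · exact Or.inr ⟨i, hF hi, G', hG'.trans hF, m, rfl⟩
  have hcnt : ∀ F, (𝓕 F).Countable := by
    intro F
    have h1 : 𝓕 F ⊆ (⋃ G ∈ F.powerset, ⋃ G' ∈ F.powerset, ⋃ n : ℕ,
        range fun m => Λ G n (G'.image d) m) ∪
        (⋃ i ∈ F, ⋃ G' ∈ F.powerset, range fun m => Θ i (G'.image d) m) := by
      rintro g (⟨G, hG, G', hG', n, m, rfl⟩ | ⟨i, hi, G', hG', m, rfl⟩)
      · exact Or.inl (mem_iUnion₂.2 ⟨G, Finset.mem_powerset.2 hG,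
          mem_iUnion₂.2 ⟨G', Finset.mem_powerset.2 hG', mem_iUnion.2 ⟨n, m, rfl⟩⟩⟩)
      · exact Or.inr (mem_iUnion₂.2 ⟨i, hi, mem_iUnion₂.2 ⟨G', Finset.mem_powerset.2 hG', m, rfl⟩⟩)
    refine Set.Countable.mono h1 (Set.Countable.union ?_ ?_)
    · exact F.powerset.countable_toSet.biUnion fun G _ =>
        F.powerset.countable_toSet.biUnion fun G' _ => countable_iUnion fun n => countable_range _
    · exact F.countable_toSet.biUnion fun i _ => F.powerset.countable_toSet.biUnion fun G _ =>
        countable_range _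
  choose c₀ hcc hcd using fun F =>
    exists_countable_fiber_dense d Set.univ (fun x _ => hd x) (𝓕 F) (hcnt F) (hcont F)
  let c : Finset K → Set K := fun F => c₀ F ∪ ⋃ i ∈ F, Iic i
  have hlow : ∀ S, ClosedUnder c S → ∀ i ∈ S, ∀ j ≤ i, j ∈ S := by
    intro S hS i hi j hj
    refine hS {i} (by simpa using hi) (Or.inr ?_)
    exact mem_iUnion₂.2 ⟨i, Finset.mem_singleton_self i, hj⟩
  -- if `i` is missing from a lower set `S`, then `S` is contained in `Iio i`
  have hmiss : ∀ S, ClosedUnder c S → ∀ i ∉ S, S ⊆ Iio i := by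
    intro S hS i hi j hj
    by_contra hcon
    exact hi (hlow S hS j hj i (not_lt.1 hcon))
  have H : ChainHyp d 𝓕 c :=
    { cont := hcont
      mono := hmono
      dens := by
        intro x F
        obtain ⟨z, hz, hzx⟩ := hcd F x (Set.mem_univ x)
        exact ⟨z, closure_mono (image_mono subset_union_left) hz, hzx⟩
      sep := by
        intro S hS x hx y hy hxy
        -- the rank colours
        have hrk : ∀ x ∈ closure (d '' S), ∀ y ∈ closure (d '' S), ρ x < ρ y →
            ∃ F : Finset K, (F : Set K) ⊆ S ∧ ∃ g ∈ 𝓕 F, g x ≠ g y := by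
          intro x hx y hy hlt
          have hmem : ρ x ∈ S := by
            by_contra hcon
            have h1 : y ∈ closure (d '' Iio (ρ x)) :=
              closure_mono (image_mono (hmiss S hS _ hcon)) hy
            exact absurd (hρ2 y _ h1) (not_le.2 hlt)
          have hcol : (if x ∈ closure (d '' Iio (ρ x)) then (1 : ℝ) else 0) ≠
              (if y ∈ closure (d '' Iio (ρ x)) then (1 : ℝ) else 0) := by
            rw [if_pos (hρ1 x), if_neg]
            · exact one_ne_zero
            · intro hcon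
              exact absurd (hρ2 y _ hcon) (not_le.2 hlt)
          obtain ⟨H, hH, m, hm⟩ := hΘs (ρ x) (d '' S) x y hx hy hcol
          obtain ⟨G', hG', rfl⟩ := Finset.subset_set_image_iff.1 hH
          refine ⟨insert (ρ x) G', ?_, _, Or.inr ⟨ρ x, Finset.mem_insert_self _ _, G',
            Finset.subset_insert _ _, m, rfl⟩, hm⟩
          rw [Finset.coe_insert]
          exact insert_subset hmem hG'
        rcases lt_trichotomy (ρ x) (ρ y) with hlt | heq | hgt
        · exact hrk x hx y hy hlt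
        · have hsub : Iio (ρ x) ⊆ S := by
            intro i hi
            by_contra hcon
            have h1 : x ∈ closure (d '' Iio i) := closure_mono (image_mono (hmiss S hS _ hcon)) hx
            exact absurd (hρ2 x _ h1) (not_le.2 hi)
          have hy' : y ∈ closure (d '' Iio (ρ x)) := by
            rw [heq]
            exact hρ1 y
          obtain ⟨H, hH, n, hn⟩ := hs (ρ x) (d '' Iio (ρ x)) subset_closure x y (hρ1 x) hy' hxy
          obtain ⟨G, hG, rfl⟩ := Finset.subset_set_image_iff.1 hH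
          have hcol : Γ (ρ x) (G.image d) n x ≠ Γ (ρ y) (G.image d) n y := by
            rw [← heq]
            exact hn
          obtain ⟨H', hH', m, hm⟩ := hΛs G n (d '' S) x y hx hy hcol
          obtain ⟨G', hG', rfl⟩ := Finset.subset_set_image_iff.1 hH'
          refine ⟨G ∪ G', ?_, _, Or.inl ⟨G, Finset.subset_union_left, G',
            Finset.subset_union_right, n, m, rfl⟩, hm⟩
          rw [Finset.coe_union]
          exact union_subset (hG.trans hsub) hG'
        · obtain ⟨F, hF, g, hg, hne⟩ := hrk y hy x hx hgt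
          exact ⟨F, hF, g, hg, hne.symm⟩ }
  refine H.isCorson htight hd fun α => (ih _ ?_).isCorson
  refine mk_image_le.trans_lt (mk_cl_lt c hreg hk (mk_Iic_lt hk hK α) fun F => ?_)
  have h2 : #(c F) ≤ #(c₀ F) + #(⋃ i ∈ F, Iic i : Set K) := mk_union_le _ _
  refine h2.trans_lt (add_lt_of_lt hk.le (((hcc F).le_aleph0).trans_lt hk) ?_)
  have : Nonempty K := by
    obtain ⟨i, -⟩ := hb ∅ countable_empty
    exact ⟨i⟩
  obtain ⟨M, hM⟩ := F.exists_le
  have h3 : (⋃ i ∈ F, Iic i : Set K) ⊆ Iic M := by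
    intro j hj
    obtain ⟨i, hi, hji⟩ := mem_iUnion₂.1 hj
    exact le_trans hji (hM i hi)
  exact (mk_le_mk_of_subset h3).trans_lt (mk_Iic_lt hk hK M)

end Steps

theorem isGulko_of_splittable_aux (k : Cardinal.{u}) : ∀ (X : Type u) [TopologicalSpace X]
    [CompactSpace X] [T2Space X], Splittable X → ∀ D : Set X, Dense D → #D = k → IsGulko X := by
  induction k using WellFoundedLT.induction with
  | ind k ih =>
    intro X _ _ _ h D hD hDk
    have hrange : ∀ {K : Type u} (e : K ≃ D), ∀ x, x ∈ closure (range fun i => (e i).1) := by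
      intro K e x
      have : range (fun i => (e i).1) = D := by
        ext y
        constructor
        · rintro ⟨i, rfl⟩
          exact (e i).2
        · intro hy
          exact ⟨e.symm ⟨y, hy⟩, by simp⟩
      rw [this]
      exact hD x
    rcases le_or_gt k ℵ₀ with hk | hk
    · -- separable spaces are small
      obtain ⟨e⟩ := h.exists_injection (K := D) (fun i => i.1) (hrange (Equiv.refl D))
      refine h.isGulko_of_embedding (Classical.choice ?_)
      refine exists_code ?_
      have h1 : #X ≤ #(ℕ → D) := mk_le_of_injective e.injective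
      have h2 : #(ℕ → D) = #D ^ ℵ₀ := by simp
      rw [h2, hDk] at h1
      refine h1.trans ?_
      calc k ^ ℵ₀ ≤ 𝔠 ^ ℵ₀ := power_le_power_right (hk.trans aleph0_le_continuum)
        _ = 𝔠 := continuum_power_aleph0
    · have ih' : ∀ A : Set X, #A < k → IsGulko (closure A) := by
        intro A hA
        have hc : CompactSpace (closure A) :=
          isCompact_iff_compactSpace.1 isClosed_closure.isCompact
        have hlt : #((Subtype.val : closure A → X) ⁻¹' A) < k :=
          (mk_preimage_closure A).trans_lt hA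
        exact ih _ hlt (closure A) (h.subspace _) _ (dense_preimage_closure A) rfl
      have he : #(k.ord.ToType) = #D := by rw [mk_ord_toType, hDk]
      obtain ⟨e⟩ := Cardinal.eq.1 he
      by_cases hb : ∀ s : Set k.ord.ToType, s.Countable → ∃ i, ∀ j ∈ s, j < i
      · rcases isRegular_or_isSingular hk.le with hreg | hsing
        · exact h.isGulko_of_isCorson (isCorson_regular (K := k.ord.ToType) h hreg hk mk_Iio_ord
            (fun i => (e i).1) (hrange e) ih' hb)
        · obtain ⟨U, hU, hUcard⟩ := Order.exists_cof_eq k.ord.ToType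
          have hUlt : #U < k := by
            rw [hUcard, Ordinal.cof_toType]
            exact hsing.cof_ord_lt
          exact h.isGulko_of_isCorson (isCorson_singular (K := k.ord.ToType) h hk mk_Iio_ord
            (fun i => (e i).1) (hrange e) ih' hb U hUlt hU)
      · push Not at hb
        obtain ⟨s, hs, hb⟩ := hb
        have hne : Nonempty k.ord.ToType := by
          rw [← mk_ne_zero_iff, mk_ord_toType]
          exact (aleph0_pos.trans hk).ne'
        obtain ⟨i0⟩ := hne
        have hsne : s.Nonempty := by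
          obtain ⟨j, hj, -⟩ := hb i0
          exact ⟨j, hj⟩
        obtain ⟨a, ha⟩ := hs.exists_eq_range hsne
        refine isGulko_cof (K := k.ord.ToType) h hk ?_ mk_Iio_ord (fun i => (e i).1) (hrange e)
          ih' a fun i => ?_
        · rw [mk_ord_toType]
          exact hk.le
        · obtain ⟨j, hj, hij⟩ := hb i
          rw [ha] at hj
          obtain ⟨n, rfl⟩ := hj
          exact ⟨n, hij⟩

/-- **Main theorem.** Every compact Hausdorff space splittable over the class of Gul'ko compacta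
is Gul'ko compact. -/
theorem Splittable.isGulko {X : Type u} [TopologicalSpace X] [CompactSpace X] [T2Space X]
    (h : Splittable X) : IsGulko X :=
  isGulko_of_splittable_aux _ X h Set.univ dense_univ rfl

/-- A Gul'ko compact space is splittable over the class of Gul'ko compacta. -/
theorem IsGulko.splittable {X : Type u} [TopologicalSpace X] (h : IsGulko X) : Splittable X :=
  fun A => ⟨X, inferInstance, id, h, continuous_id, by simp⟩

end Pool.Agent.Helper73.Split
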