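import Pool.Agent.Helper73.Split.Color

/-!
# Spaces splittable over the class of Gul'ko compacta: basic properties
-/

open Set Filter Topology TopologicalSpace Cardinal

universe u

namespace Pool.Agent.Helper73.Split

/-- Splittability over the class of Gul'ko compact spaces. -/
def Splittable (X : Type u) [TopologicalSpace X] : Prop :=
  ∀ A : Set X, ∃ (Y : Type u) (_ : TopologicalSpace Y) (f : X → Y),
    IsGulko Y ∧ Continuous f ∧ f ⁻¹' (f '' A) = A

theorem Splittable.subspace {X : Type u} [TopologicalSpace X] (h : Splittable X) (Z : Set X) :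
    Splittable Z := by
  intro A
  obtain ⟨Y, tY, f, hY, hf, hA⟩ := h (Subtype.val '' A)
  refine ⟨Y, tY, fun z => f z.1, hY, hf.comp continuous_subtype_val, ?_⟩
  ext z
  constructor
  · rintro ⟨w, hw, hwz⟩
    have h1 : z.1 ∈ f ⁻¹' (f '' (Subtype.val '' A)) := ⟨w.1, ⟨w, hw, rfl⟩, hwz⟩
    rw [hA] at h1
    obtain ⟨w', hw', hw'z⟩ := h1
    rwa [← Subtype.ext hw'z]
  · intro hz
    exact ⟨z, hz, rfl⟩

/-- Splitting a colouring. -/
theorem Splittable.color {X : Type u} [TopologicalSpace X] (h : Splittable X) (col : X → ℝ) :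
    ∃ (Y : Type u) (_ : TopologicalSpace Y) (f : X → Y), IsGulko Y ∧ Continuous f ∧
      ∀ x y, f x = f y → col x = col y := by
  choose Y tY f hY hf hA using fun q : ℚ => h {x | col x < q}
  have hc : ∀ q, CompactSpace (Y q) := fun q => (hY q).1
  have ht : ∀ q, T2Space (Y q) := fun q => (hY q).2.1
  refine ⟨∀ q, Y q, inferInstance, fun x q => f q x, ?_, continuous_pi hf, ?_⟩
  · exact isGulko_of_joint Y hY (fun q y => y q) (fun q => continuous_apply q)
      (fun x y hxy => funext hxy)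
  · intro x y hxy
    have key : ∀ x y : X, (fun q => f q x) = (fun q => f q y) → ∀ q : ℚ, col y < q → col x < q := by
      intro x y hxy q hy
      have h1 : x ∈ f q ⁻¹' (f q '' {x | col x < q}) := ⟨y, hy, (congrFun hxy q).symm⟩
      rw [hA q] at h1
      exact h1
    refine le_antisymm ?_ ?_
    · by_contra hcon
      obtain ⟨q, hq1, hq2⟩ := exists_rat_btwn (not_le.1 hcon)
      exact absurd (key x y hxy q hq1) (not_lt.2 hq2.le)
    · by_contra hcon
      obtain ⟨q, hq1, hq2⟩ := exists_rat_btwn (not_le.1 hcon)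
      exact absurd (key y x hxy.symm q hq1) (not_lt.2 hq2.le)

/-- Pulling back the functions separating closures. -/
theorem exists_gamma_of_map {X Y : Type u} [TopologicalSpace X] [TopologicalSpace Y]
    (hY : HasGamma Y) (f : X → Y) (hf : Continuous f) :
    ∃ Γ : Finset X → ℕ → X → ℝ, (∀ F n, Continuous (Γ F n)) ∧
      (∀ F n x y, f x = f y → Γ F n x = Γ F n y) ∧
      ∀ (A : Set X) (x y : X), x ∈ closure A → y ∈ closure A → f x ≠ f y →
        ∃ F : Finset X, (F : Set X) ⊆ A ∧ ∃ n, Γ F n x ≠ Γ F n y := by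
  classical
  obtain ⟨Γ, hc, hs⟩ := hY
  refine ⟨fun F n x => Γ (F.image f) n (f x), fun F n => (hc _ n).comp hf,
    fun F n x y hxy => by simp only [hxy], ?_⟩
  intro A x y hx hy hxy
  have hx' : f x ∈ closure (f '' A) := image_closure_subset_closure_image hf ⟨x, hx, rfl⟩
  have hy' : f y ∈ closure (f '' A) := image_closure_subset_closure_image hf ⟨y, hy, rfl⟩
  obtain ⟨G, hG, n, hn⟩ := hs _ _ _ hx' hy' hxy
  obtain ⟨F, hF, rfl⟩ := Finset.subset_set_image_iff.1 hG
  exact ⟨F, hF, n, hn⟩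

theorem Splittable.gamma {X : Type u} [TopologicalSpace X] (h : Splittable X) (col : X → ℝ) :
    ∃ Γ : Finset X → ℕ → X → ℝ, (∀ F n, Continuous (Γ F n)) ∧
      ∀ (A : Set X) (x y : X), x ∈ closure A → y ∈ closure A → col x ≠ col y →
        ∃ F : Finset X, (F : Set X) ⊆ A ∧ ∃ n, Γ F n x ≠ Γ F n y := by
  obtain ⟨Y, tY, f, hY, hf, hcol⟩ := h.color col
  obtain ⟨Γ, hc, -, hs⟩ := exists_gamma_of_map hY.hasGamma f hf
  exact ⟨Γ, hc, fun A x y hx hy hxy => hs A x y hx hy fun hcon => hxy (hcol x y hcon)⟩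

/-- Splittable compacta are countably tight. -/
theorem Splittable.cTight {X : Type u} [TopologicalSpace X] [CompactSpace X]
    (h : Splittable X) : CTight X := by
  intro A x hx
  let Z : Set X := {z | ∃ C ⊆ A, C.Countable ∧ z ∈ closure C}
  obtain ⟨Y, tY, f, hY, hf, hZ⟩ := h Z
  have hcY := hY.1
  have htY := hY.2.1
  have htight : CTight Y := hY.hasGamma.cTight
  have hfx : f x ∈ closure (f '' A) := image_closure_subset_closure_image hf ⟨x, hx, rfl⟩
  obtain ⟨C, hC, hCc, hxC⟩ := htight.image f hfx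
  have hcl : IsClosed (f '' closure C) := (isClosed_closure.isCompact.image hf).isClosed
  have h1 : f x ∈ f '' closure C := closure_minimal (image_mono subset_closure) hcl hxC
  obtain ⟨z, hz, hzx⟩ := h1
  have h2 : x ∈ f ⁻¹' (f '' Z) := ⟨z, ⟨C, hC, hCc, hz⟩, hzx⟩
  rw [hZ] at h2
  exact h2

/-- Small splittable compacta are Gul'ko. -/
theorem Splittable.isGulko_of_embedding {X : Type u} [TopologicalSpace X] [CompactSpace X]
    [T2Space X] (h : Splittable X) (e : X ↪ ℝ) : IsGulko X := by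
  obtain ⟨Y, tY, f, hY, hf, hcol⟩ := h.color e
  exact isGulko_of_joint (ι := Unit) (fun _ => Y) (fun _ => hY) (fun _ => f) (fun _ => hf)
    fun x y hxy => e.injective (hcol x y (hxy ()))

/-- Convergence of sequences from a countable separating family. -/
theorem tendsto_of_separating {X : Type u} [TopologicalSpace X] [CompactSpace X] (g : ℕ → X → ℝ)
    (hg : ∀ n, Continuous (g n)) (x : X) (hx : ∀ y, (∀ n, g n y = g n x) → y = x) (s : ℕ → X)
    (hs : ∀ n, Tendsto (fun k => g n (s k)) atTop (𝓝 (g n x))) : Tendsto s atTop (𝓝 x) := by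
  rw [tendsto_iff_ultrafilter]
  intro U hU
  obtain ⟨y, -, hy⟩ := isCompact_univ.ultrafilter_le_nhds (U.map s) (by simp)
  have hy' : Tendsto s U (𝓝 y) := hy
  have : y = x := by
    refine hx y fun n => ?_
    have h1 : Tendsto (fun k => g n (s k)) U (𝓝 (g n y)) := ((hg n).tendsto y).comp hy'
    have h2 : Tendsto (fun k => g n (s k)) U (𝓝 (g n x)) := (hs n).mono_left hU
    exact tendsto_nhds_unique h1 h2
  rwa [this] at hy'

/-- Points of the closure of a set are limits of sequences. -/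
theorem Splittable.exists_seq {X : Type u} [TopologicalSpace X] [CompactSpace X] [T2Space X]
    (h : Splittable X) {K : Type u} (d : K → X) {x : X} (hx : x ∈ closure (range d)) :
    ∃ s : ℕ → K, Tendsto (fun n => d (s n)) atTop (𝓝 x) := by
  classical
  rw [← image_univ] at hx
  obtain ⟨C, -, hCc, hxC⟩ := h.cTight.image d hx
  -- work in the closure of `d '' C`
  let Z : Set X := closure (d '' C)
  have hZc : CompactSpace Z := isCompact_iff_compactSpace.1 isClosed_closure.isCompact
  let A : Set Z := Subtype.val ⁻¹' (d '' C)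
  have hAd : Dense A := dense_preimage_closure _
  have hAc : A.Countable := (hCc.image d).preimage Subtype.val_injective
  obtain ⟨Y, tY, f, hY, hf, hfx⟩ := h.subspace Z {⟨x, hxC⟩}
  obtain ⟨Γ, hc, -, hs⟩ := exists_gamma_of_map hY.hasGamma f hf
  have hcount : (GF Γ A).Countable := GF_countable Γ hAc
  have hne : (GF Γ A).Nonempty := ⟨Γ ∅ 0, ∅, by simp, 0, rfl⟩
  obtain ⟨g, hg⟩ := hcount.exists_eq_range hne
  have hgc : ∀ n, Continuous (g n) := by
    intro n
    have : g n ∈ GF Γ A := by rw [hg]; exact ⟨n, rfl⟩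
    obtain ⟨G, -, m, hm⟩ := this
    rw [hm]
    exact hc G m
  have hsep : ∀ y : Z, (∀ n, g n y = g n ⟨x, hxC⟩) → y = ⟨x, hxC⟩ := by
    intro y hy
    by_contra hne'
    have hfne : f y ≠ f ⟨x, hxC⟩ := by
      intro hcon
      have : y ∈ f ⁻¹' (f '' {⟨x, hxC⟩}) := ⟨⟨x, hxC⟩, rfl, hcon.symm⟩
      rw [hfx] at this
      exact hne' this
    obtain ⟨G, hG, n, hn⟩ := hs A y ⟨x, hxC⟩ (hAd y) (hAd _) hfne
    have : Γ G n ∈ GF Γ A := ⟨G, hG, n, rfl⟩
    rw [hg] at this
    obtain ⟨m, hm⟩ := this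
    rw [← hm] at hn
    exact hn (hy m)
  -- choose the sequence
  have hex : ∀ k : ℕ, ∃ a : A, ∀ n ≤ k, |g n a.1 - g n ⟨x, hxC⟩| < 1 / ((k : ℝ) + 1) := by
    intro k
    let O : Set Z := ⋂ n ∈ Finset.range (k + 1), {y | |g n y - g n ⟨x, hxC⟩| < 1 / ((k : ℝ) + 1)}
    have hO : IsOpen O := isOpen_biInter_finset fun n _ =>
      isOpen_lt (continuous_abs.comp ((hgc n).sub continuous_const)) continuous_const
    have hxO : (⟨x, hxC⟩ : Z) ∈ O := by
      simp only [O, mem_iInter]
      intro n _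
      have : (0 : ℝ) < 1 / ((k : ℝ) + 1) := by positivity
      simpa using this
    obtain ⟨a, haO, haA⟩ := mem_closure_iff.1 (hAd ⟨x, hxC⟩) O hO hxO
    refine ⟨⟨a, haA⟩, fun n hn => ?_⟩
    simp only [O, mem_iInter] at haO
    exact haO n (Finset.mem_range.2 (Nat.lt_succ_of_le hn))
  choose a ha using hex
  have hlim : Tendsto (fun k => (a k).1) atTop (𝓝 (⟨x, hxC⟩ : Z)) := by
    refine tendsto_of_separating g hgc _ hsep _ fun n => ?_
    rw [Metric.tendsto_nhds]
    intro ε hε
    obtain ⟨N, hN⟩ := exists_nat_one_div_lt hε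
    filter_upwards [eventually_ge_atTop (max n N)] with k hk
    rw [Real.dist_eq]
    refine lt_trans (lt_of_lt_of_le (ha k n (le_trans (le_max_left _ _) hk)) ?_) hN
    have : (N : ℝ) ≤ k := by exact_mod_cast (le_trans (le_max_right _ _) hk)
    exact one_div_le_one_div_of_le (by positivity) (by linarith)
  choose s hs' hsd using fun k => (a k).2
  refine ⟨s, ?_⟩
  have h3 : Tendsto (fun k => (a k).1.1) atTop (𝓝 x) :=
    (continuous_subtype_val.tendsto (⟨x, hxC⟩ : Z)).comp hlim
  refine h3.congr fun k => ?_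
  exact (hsd k).symm

theorem Splittable.exists_injection {X : Type u} [TopologicalSpace X] [CompactSpace X] [T2Space X]
    (h : Splittable X) {K : Type u} (d : K → X) (hd : ∀ x, x ∈ closure (range d)) :
    Nonempty (X ↪ (ℕ → K)) := by
  choose s hs using fun x => h.exists_seq d (hd x)
  refine ⟨⟨s, fun x y hxy => ?_⟩⟩
  have h1 := hs x
  rw [hxy] at h1
  exact tendsto_nhds_unique h1 (hs y)

end Pool.Agent.Helper73.Split
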